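import Mathlib

set_option autoImplicit false
open scoped Classical

namespace Pool.Agent.W120.BC

/-- The set of numbers of bicliques in a biclique partition of `G` (sides may be empty). -/
def BCset {n : ℕ} (G : SimpleGraph (Fin n)) : Set ℕ :=
  {k : ℕ | ∃ A B : Fin k → Finset (Fin n),
              (∀ i, Disjoint (A i) (B i)) ∧
              ∀ u v : Fin n,
                (G.Adj u v → ∃! i, (u ∈ A i ∧ v ∈ B i) ∨ (v ∈ A i ∧ u ∈ B i)) ∧
                (¬ G.Adj u v → ∀ i, ¬ (u ∈ A i ∧ v ∈ B i))}

/-- A biclique partition indexed by any finite type. -/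
theorem mem_BCset_of_fintype {n k : ℕ} (G : SimpleGraph (Fin n)) {ι : Type} [Fintype ι]
    (hk : Fintype.card ι = k) (A B : ι → Finset (Fin n)) (hd : ∀ i, Disjoint (A i) (B i))
    (h : ∀ u v : Fin n,
                (G.Adj u v → ∃! i, (u ∈ A i ∧ v ∈ B i) ∨ (v ∈ A i ∧ u ∈ B i)) ∧
                (¬ G.Adj u v → ∀ i, ¬ (u ∈ A i ∧ v ∈ B i))) : k ∈ BCset G := by
  have e := Fintype.equivFinOfCardEq hk
  refine ⟨fun i => A (e.symm i), fun i => B (e.symm i), fun i => hd _, fun u v => ⟨fun huv => ?_, fun huv i => ?_⟩⟩
  · obtain ⟨i, hi, hu⟩ := (h u v).1 huv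
    refine ⟨e i, by simpa using hi, fun j hj => ?_⟩
    have := hu (e.symm j) hj
    rw [← this]; simp
  · exact (h u v).2 huv _

/-- The structure: an independent set `W` and two further non-adjacent vertices `u`, `u'` with
the same neighbours in `W`. -/
def Struct {n : ℕ} (G : SimpleGraph (Fin n)) (W : Finset (Fin n)) (u u' : Fin n) : Prop :=
  (∀ i ∈ W, ∀ j ∈ W, ¬ G.Adj i j) ∧ (∀ w ∈ W, (G.Adj w u ↔ G.Adj w u')) ∧ ¬ G.Adj u u'

theorem struct_mem {n : ℕ} (G : SimpleGraph (Fin n)) (W : Finset (Fin n)) (u u' : Fin n)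
    (hu : u ∉ W) (hu' : u' ∉ W) (huu : u ≠ u') (h : Struct G W u u') :
    n - W.card - 1 ∈ BCset G := by
  classical
  obtain ⟨hW, hN, hE⟩ := h
  set T : Finset (Fin n) := insert u (insert u' W) with hT
  have hTc : T.card = W.card + 2 := by
    rw [hT, Finset.card_insert_of_notMem, Finset.card_insert_of_notMem hu']
    simp [huu, hu]
  have hTn : T.card ≤ n := by
    have := Finset.card_le_univ T
    simpa using this
  -- index type
  let R : Finset (Fin n) := Tᶜ
  have hR : Fintype.card (Option R) = n - W.card - 1 := by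
    rw [Fintype.card_option]
    have : Fintype.card R = n - T.card := by
      simp [R, Finset.card_compl]
    rw [this, hTc]
    omega
  have memT : ∀ x, x ∈ T ↔ (x = u ∨ x = u' ∨ x ∈ W) := by
    intro x; simp [hT]
  have memR : ∀ x, x ∈ R ↔ x ∉ T := by
    intro x; simp [R]
  -- edges inside T
  have hin : ∀ x ∈ T, ∀ y ∈ T, G.Adj x y → ((x = u ∨ x = u') ∧ y ∈ W ∧ G.Adj y u) ∨
      ((y = u ∨ y = u') ∧ x ∈ W ∧ G.Adj x u) := by
    intro x hx y hy hxy
    rw [memT] at hx hy
    rcases hx with rfl | rfl | hx
    · rcases hy with rfl | rfl | hy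
      · exact absurd hxy (G.loopless.irrefl _)
      · exact absurd hxy hE
      · left; exact ⟨Or.inl rfl, hy, hxy.symm⟩
    · rcases hy with rfl | rfl | hy
      · exact absurd hxy.symm hE
      · exact absurd hxy (G.loopless.irrefl _)
      · left; exact ⟨Or.inr rfl, hy, (hN _ hy).2 hxy.symm⟩
    · rcases hy with rfl | rfl | hy
      · right; exact ⟨Or.inl rfl, hx, hxy⟩
      · right; exact ⟨Or.inr rfl, hx, (hN _ hx).2 hxy⟩
      · exact absurd hxy (hW _ hx _ hy)
  let A : Option R → Finset (Fin n) := fun i => match i with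
    | none => {u, u'}
    | some v => {v.1}
  let B : Option R → Finset (Fin n) := fun i => match i with
    | none => W.filter (fun w => G.Adj w u)
    | some v => Finset.univ.filter (fun x => G.Adj v.1 x ∧ (x ∈ R → v.1 < x))
  have hAn : ∀ x, x ∈ A none ↔ (x = u ∨ x = u') := by intro x; simp [A]
  have hBn : ∀ x, x ∈ B none ↔ (x ∈ W ∧ G.Adj x u) := by intro x; simp [B]
  have hAs : ∀ (v : R) x, x ∈ A (some v) ↔ x = v.1 := by intro v x; simp [A]
  have hBs : ∀ (v : R) x, x ∈ B (some v) ↔ (G.Adj v.1 x ∧ (x ∈ R → v.1 < x)) := by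
    intro v x; simp [B]
  refine mem_BCset_of_fintype G hR A B ?_ ?_
  · intro i
    rw [Finset.disjoint_left]
    intro x hx hx'
    rcases i with _ | v
    · rw [hAn] at hx; rw [hBn] at hx'
      rcases hx with rfl | rfl
      · exact hu hx'.1
      · exact hu' hx'.1
    · rw [hAs] at hx; rw [hBs] at hx'
      subst hx
      exact G.loopless.irrefl _ hx'.1
  · intro x y
    constructor
    · intro hxy
      by_cases hxR : x ∈ R
      · by_cases hyR : y ∈ R
        · -- both in R
          rcases lt_or_gt_of_ne hxy.ne with hlt | hlt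
          · refine ⟨some ⟨x, hxR⟩, Or.inl ⟨by rw [hAs], by rw [hBs]; exact ⟨hxy, fun _ => hlt⟩⟩, ?_⟩
            rintro (_ | v) hj
            · rcases hj with ⟨h1, h2⟩ | ⟨h1, h2⟩
              · rw [hAn] at h1
                exact absurd ((memT x).2 (by tauto)) ((memR x).1 hxR)
              · rw [hAn] at h1
                exact absurd ((memT y).2 (by tauto)) ((memR y).1 hyR)
            · rcases hj with ⟨h1, h2⟩ | ⟨h1, h2⟩
              · rw [hAs] at h1
                congr 1; exact Subtype.ext h1.symm
              · rw [hAs] at h1; rw [hBs] at h2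
                have := h2.2 hxR
                rw [← h1] at this
                exact absurd this (lt_asymm hlt)
          · refine ⟨some ⟨y, hyR⟩, Or.inr ⟨by rw [hAs], by rw [hBs]; exact ⟨hxy.symm, fun _ => hlt⟩⟩, ?_⟩
            rintro (_ | v) hj
            · rcases hj with ⟨h1, h2⟩ | ⟨h1, h2⟩
              · rw [hAn] at h1
                exact absurd ((memT x).2 (by tauto)) ((memR x).1 hxR)
              · rw [hAn] at h1
                exact absurd ((memT y).2 (by tauto)) ((memR y).1 hyR)
            · rcases hj with ⟨h1, h2⟩ | ⟨h1, h2⟩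
              · rw [hAs] at h1; rw [hBs] at h2
                have := h2.2 hyR
                rw [← h1] at this
                exact absurd this (lt_asymm hlt)
              · rw [hAs] at h1
                congr 1; exact Subtype.ext h1.symm
        · refine ⟨some ⟨x, hxR⟩, Or.inl ⟨by rw [hAs], by rw [hBs]; exact ⟨hxy, fun h => absurd h hyR⟩⟩, ?_⟩
          rintro (_ | v) hj
          · rcases hj with ⟨h1, h2⟩ | ⟨h1, h2⟩
            · rw [hAn] at h1
              exact absurd ((memT x).2 (by tauto)) ((memR x).1 hxR)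
            · rw [hBn] at h2
              exact absurd ((memT x).2 (by tauto)) ((memR x).1 hxR)
          · rcases hj with ⟨h1, h2⟩ | ⟨h1, h2⟩
            · rw [hAs] at h1
              congr 1; exact Subtype.ext h1.symm
            · rw [hAs] at h1
              exact absurd (h1 ▸ v.2) hyR
      · by_cases hyR : y ∈ R
        · refine ⟨some ⟨y, hyR⟩, Or.inr ⟨by rw [hAs], by rw [hBs]; exact ⟨hxy.symm, fun h => absurd h hxR⟩⟩, ?_⟩
          rintro (_ | v) hj
          · rcases hj with ⟨h1, h2⟩ | ⟨h1, h2⟩
            · rw [hBn] at h2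
              exact absurd ((memT y).2 (by tauto)) ((memR y).1 hyR)
            · rw [hAn] at h1
              exact absurd ((memT y).2 (by tauto)) ((memR y).1 hyR)
          · rcases hj with ⟨h1, h2⟩ | ⟨h1, h2⟩
            · rw [hAs] at h1
              exact absurd (h1 ▸ v.2) hxR
            · rw [hAs] at h1
              congr 1; exact Subtype.ext h1.symm
        · have hxT : x ∈ T := by by_contra h; exact hxR ((memR x).2 h)
          have hyT : y ∈ T := by by_contra h; exact hyR ((memR y).2 h)
          refine ⟨none, ?_, ?_⟩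
          · rcases hin x hxT y hyT hxy with h | h
            · left; exact ⟨(hAn x).2 h.1, (hBn y).2 h.2⟩
            · right; exact ⟨(hAn y).2 h.1, (hBn x).2 h.2⟩
          · rintro (_ | v) hj
            · rfl
            · rcases hj with ⟨h1, h2⟩ | ⟨h1, h2⟩
              · rw [hAs] at h1
                exact absurd (h1 ▸ v.2) hxR
              · rw [hAs] at h1
                exact absurd (h1 ▸ v.2) hyR
    · intro hxy i hi
      rcases i with _ | v
      · rw [hAn, hBn] at hi
        obtain ⟨h1, h2, h3⟩ := hi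
        rcases h1 with rfl | rfl
        · exact hxy h3.symm
        · exact hxy ((hN _ h2).1 h3).symm
      · rw [hAs, hBs] at hi
        obtain ⟨h1, h2, h3⟩ := hi
        subst h1
        exact hxy h2

/-- If the structure exists with `|W| = a` and there is no independent set of size `a+1`, then
the biclique partition number is not `n - α`. -/
theorem not_eq_of_struct {n a : ℕ} (G : SimpleGraph (Fin n)) (W : Finset (Fin n)) (u u' : Fin n)
    (hc : W.card = a)
    (hu : u ∉ W) (hu' : u' ∉ W) (huu : u ≠ u') (h : Struct G W u u')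
    (hα : ∀ T : Finset (Fin n), T.card = a + 1 → ∃ i ∈ T, ∃ j ∈ T, G.Adj i j) :
    sInf (BCset G) ≠ n - Gᶜ.cliqueNum := by
  classical
  have h1 : sInf (BCset G) ≤ n - a - 1 := by
    rw [← hc]
    exact Nat.sInf_le (struct_mem G W u u' hu hu' huu h)
  have hn : a + 2 ≤ n := by
    have hTc : (insert u (insert u' W)).card = W.card + 2 := by
      rw [Finset.card_insert_of_notMem, Finset.card_insert_of_notMem hu']
      simp [huu, hu]
    have := Finset.card_le_univ (insert u (insert u' W))
    rw [hTc, hc] at this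
    simpa using this
  have h2 : Gᶜ.cliqueNum ≤ a := by
    by_contra hlt
    push Not at hlt
    obtain ⟨s, hs⟩ := Gᶜ.exists_isNClique_cliqueNum
    obtain ⟨t, hts, htc⟩ := Finset.exists_subset_card_eq (s := s) (n := a + 1) (by
      rw [hs.card_eq]; exact hlt)
    obtain ⟨i, hi, j, hj, hij⟩ := hα t htc
    have := hs.isClique (hts hi) (hts hj) hij.ne
    rw [SimpleGraph.compl_adj] at this
    exact this.2 hij
  omega

end Pool.Agent.W120.BC
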