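import Mathlib

set_option autoImplicit false
open scoped Classical

namespace Pool.Agent.W120.BC

/-- Weight of one bit. -/
noncomputable def wt (p q : ℝ) (b : Bool) : ℝ := if b then p else q

/-- The graph coded by an array of bits (only entries above the diagonal matter). -/
def gr {n : ℕ} (x : Fin n → Fin n → Bool) : SimpleGraph (Fin n) where
  Adj i j := (i < j ∧ x i j = true) ∨ (j < i ∧ x j i = true)
  symm := ⟨by
    intro i j h
    rcases h with h | h
    · exact Or.inr h
    · exact Or.inl h⟩
  loopless := ⟨by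
    intro i h
    rcases h with h | h <;> exact lt_irrefl _ h.1⟩

theorem gr_adj {n : ℕ} (x : Fin n → Fin n → Bool) {i j : Fin n} (h : i < j) :
    (gr x).Adj i j ↔ x i j = true := by
  show (i < j ∧ x i j = true) ∨ (j < i ∧ x j i = true) ↔ _
  have : ¬ j < i := lt_asymm h
  simp [h, this]

/-- Weight of an array. -/
noncomputable def mu {n : ℕ} (p q : ℝ) (x : Fin n → Fin n → Bool) : ℝ := ∏ i, ∏ j, wt p q (x i j)

/-- Row weight. -/
noncomputable def rw' {n : ℕ} (p q : ℝ) (r : Fin n → Bool) : ℝ := ∏ j, wt p q (r j)

/-- Sum over arrays of a product over rows. -/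
theorem sum_mu_prod {n : ℕ} (p q : ℝ) (h : Fin n → (Fin n → Bool) → ℝ) :
    ∑ x : Fin n → Fin n → Bool, mu p q x * ∏ i, h i (x i) =
      ∏ i, ∑ r : Fin n → Bool, rw' p q r * h i r := by
  rw [Finset.prod_univ_sum, Fintype.piFinset_univ]
  refine Finset.sum_congr rfl fun x _ => ?_
  rw [mu, ← Finset.prod_mul_distrib]
  rfl

/-- Sum over rows of a product over entries. -/
theorem sum_row_prod {n : ℕ} (p q : ℝ) (h : Fin n → Bool → ℝ) :
    ∑ r : Fin n → Bool, rw' p q r * ∏ j, h j (r j) =
      ∏ j, (p * h j true + q * h j false) := by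
  have : ∀ j : Fin n, (p * h j true + q * h j false) = ∑ b : Bool, wt p q b * h j b := by
    intro j; simp [wt]
  simp_rw [this]
  rw [Finset.prod_univ_sum, Fintype.piFinset_univ]
  refine Finset.sum_congr rfl fun x _ => ?_
  rw [rw', ← Finset.prod_mul_distrib]

theorem sum_mu_one {n : ℕ} (p q : ℝ) (hpq : p + q = 1) :
    ∑ x : Fin n → Fin n → Bool, mu p q x = 1 := by
  have h1 := sum_mu_prod (n := n) p q (fun _ _ => 1)
  simp only [Finset.prod_const_one, mul_one] at h1
  rw [h1]
  refine Finset.prod_eq_one fun i _ => ?_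
  have h2 := sum_row_prod (n := n) p q (fun _ _ => 1)
  simp only [Finset.prod_const_one, mul_one] at h2
  rw [h2]
  exact Finset.prod_eq_one fun j _ => hpq

/-- The pairs above the diagonal. -/
def up (n : ℕ) : Finset (Fin n × Fin n) := Finset.univ.filter (fun e => e.1 < e.2)

theorem card_edge {n : ℕ} (G : SimpleGraph (Fin n)) :
    G.edgeFinset.card = ((up n).filter (fun e => G.Adj e.1 e.2)).card := by
  classical
  symm
  refine Finset.card_bij (fun e _ => s(e.1, e.2)) ?_ ?_ ?_
  · intro e he
    rw [Finset.mem_filter] at he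
    rw [SimpleGraph.mem_edgeFinset, SimpleGraph.mem_edgeSet]
    exact he.2
  · intro e he f hf hef
    rw [Finset.mem_filter, up, Finset.mem_filter] at he hf
    rw [Sym2.eq_iff] at hef
    rcases hef with h | h
    · exact Prod.ext h.1 h.2
    · exfalso
      have h1 := he.1.2
      have h2 := hf.1.2
      rw [h.1, h.2] at h1
      exact lt_asymm h1 h2
  · intro e he
    induction e using Sym2.ind with
    | _ a b =>
      rw [SimpleGraph.mem_edgeFinset, SimpleGraph.mem_edgeSet] at he
      rcases lt_or_gt_of_ne he.ne with h | h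
      · exact ⟨(a, b), by simp [up, h, he], rfl⟩
      · exact ⟨(b, a), by simp [up, h, he.symm], Sym2.eq_swap⟩

theorem card_up (n : ℕ) : (up n).card = n.choose 2 := by
  classical
  have h := card_edge (n := n) ⊤
  have h1 := SimpleGraph.card_edgeFinset_top_eq_card_choose_two (V := Fin n)
  rw [Fintype.card_fin] at h1
  have h2 : (up n).filter (fun e => (⊤ : SimpleGraph (Fin n)).Adj e.1 e.2) = up n := by
    rw [Finset.filter_eq_self]
    intro e he
    rw [up, Finset.mem_filter] at he
    exact he.2.ne
  rw [← h1]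
  calc (up n).card = ((up n).filter (fun e => (⊤ : SimpleGraph (Fin n)).Adj e.1 e.2)).card := by
        rw [h2]
    _ = _ := by
        convert h.symm

/-- The weight of a graph is the total weight of its codes. -/
theorem sum_mu_fiber {n : ℕ} (p q : ℝ) (hpq : p + q = 1) (G : SimpleGraph (Fin n)) :
    ∑ x : Fin n → Fin n → Bool, mu p q x * (if gr x = G then 1 else 0) =
      p ^ G.edgeFinset.card * q ^ (n.choose 2 - G.edgeFinset.card) := by
  classical
  -- indicator as a product
  have hind : ∀ x : Fin n → Fin n → Bool, (if gr x = G then (1 : ℝ) else 0) =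
      ∏ i, ∏ j, (if i < j → (x i j = true ↔ G.Adj i j) then (1 : ℝ) else 0) := by
    intro x
    by_cases hx : gr x = G
    · rw [if_pos hx]
      symm
      refine Finset.prod_eq_one fun i _ => Finset.prod_eq_one fun j _ => ?_
      rw [if_pos]
      intro hij
      rw [← gr_adj x hij, hx]
    · rw [if_neg hx]
      have : ∃ i j, i < j ∧ ¬ (x i j = true ↔ G.Adj i j) := by
        by_contra hcon
        push Not at hcon
        apply hx
        ext i j
        rcases lt_trichotomy i j with h | h | h
        · rw [gr_adj x h]; exact hcon i j h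
        · subst h
          exact ⟨fun h => absurd h ((gr x).loopless.irrefl _), fun h => absurd h (G.loopless.irrefl _)⟩
        · rw [(gr x).adj_comm, G.adj_comm, gr_adj x h]; exact hcon j i h
      obtain ⟨i, j, hij, hne⟩ := this
      symm
      refine Finset.prod_eq_zero (Finset.mem_univ i) (Finset.prod_eq_zero (Finset.mem_univ j) ?_)
      rw [if_neg]
      intro h
      exact hne (h hij)
  simp_rw [hind]
  rw [sum_mu_prod p q (fun i r => ∏ j, (if i < j → (r j = true ↔ G.Adj i j) then (1 : ℝ) else 0))]
  have hrow : ∀ i : Fin n, ∑ r : Fin n → Bool, rw' p q r *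
      ∏ j, (if i < j → (r j = true ↔ G.Adj i j) then (1 : ℝ) else 0) =
      ∏ j, (if i < j then (if G.Adj i j then p else q) else 1) := by
    intro i
    rw [sum_row_prod p q (fun j b => (if i < j → (b = true ↔ G.Adj i j) then (1 : ℝ) else 0))]
    refine Finset.prod_congr rfl fun j _ => ?_
    by_cases hij : i < j
    · by_cases hG : G.Adj i j <;> simp [hij, hG]
    · simp [hij, hpq]
  simp_rw [hrow]
  rw [← Finset.prod_product' Finset.univ Finset.univ
    (fun i j => (if i < j then (if G.Adj i j then p else q) else 1))]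
  have h1 : ∏ e ∈ (Finset.univ : Finset (Fin n)) ×ˢ (Finset.univ : Finset (Fin n)),
      (if e.1 < e.2 then (if G.Adj e.1 e.2 then p else q) else 1) =
      ∏ e ∈ up n, (if G.Adj e.1 e.2 then p else q) := by
    rw [up, Finset.prod_filter]
    rfl
  rw [h1, Finset.prod_ite, Finset.prod_const, Finset.prod_const, ← card_edge]
  congr 2
  have h2 := Finset.card_filter_add_card_filter_not (s := up n) (fun e => G.Adj e.1 e.2)
  rw [← card_edge, card_up] at h2
  omega

/-- Sum over graphs as a sum over codes. -/
theorem sum_graph {n : ℕ} (p q : ℝ) (hpq : p + q = 1) (F : SimpleGraph (Fin n) → ℝ) :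
    ∑ G : SimpleGraph (Fin n), p ^ G.edgeFinset.card * q ^ (n.choose 2 - G.edgeFinset.card) * F G =
      ∑ x : Fin n → Fin n → Bool, mu p q x * F (gr x) := by
  classical
  simp_rw [← sum_mu_fiber p q hpq, Finset.sum_mul]
  rw [Finset.sum_comm]
  refine Finset.sum_congr rfl fun x _ => ?_
  rw [Finset.sum_eq_single (gr x)]
  · simp
  · intro G _ hG
    rw [if_neg (Ne.symm hG)]
    simp
  · intro h; exact absurd (Finset.mem_univ _) h

end Pool.Agent.W120.BC
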