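import Mathlib
import Pool.Agent.W120.BC.Prob

set_option autoImplicit false
open scoped Classical

namespace Pool.Agent.W120.BC

/-- Expectation over one row. -/
noncomputable def ER {n : ℕ} (p q : ℝ) (h : (Fin n → Bool) → ℝ) : ℝ :=
  ∑ r : Fin n → Bool, rw' p q r * h r

theorem row_cyl {n : ℕ} (p q : ℝ) (hpq : p + q = 1) (K : Finset (Fin n)) (c : Fin n → Bool) :
    ER p q (fun r => if ∀ k ∈ K, r k = c k then (1 : ℝ) else 0) = ∏ k ∈ K, wt p q (c k) := by
  classical
  have hind : ∀ r : Fin n → Bool, (if ∀ k ∈ K, r k = c k then (1 : ℝ) else 0) =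
      ∏ j, (if j ∈ K → r j = c j then (1 : ℝ) else 0) := by
    intro r
    by_cases h : ∀ k ∈ K, r k = c k
    · rw [if_pos h]
      symm
      refine Finset.prod_eq_one fun j _ => if_pos (h j)
    · rw [if_neg h]
      push Not at h
      obtain ⟨k, hk, hne⟩ := h
      symm
      refine Finset.prod_eq_zero (Finset.mem_univ k) (if_neg fun h => hne (h hk))
  rw [ER]
  simp_rw [hind]
  rw [sum_row_prod p q (fun j b => if j ∈ K → b = c j then (1 : ℝ) else 0)]
  rw [← Finset.prod_subset (Finset.subset_univ K)]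
  · refine Finset.prod_congr rfl fun k hk => ?_
    cases hc : c k <;> simp [hk, wt]
  · intro k _ hk
    simp [hk, hpq]

theorem row_zero {n : ℕ} (p q : ℝ) (hpq : p + q = 1) (Z : Finset (Fin n)) :
    ER p q (fun r => if ∀ k ∈ Z, r k = false then (1 : ℝ) else 0) = q ^ Z.card := by
  rw [row_cyl p q hpq Z (fun _ => false)]
  simp [wt]

theorem row_one {n : ℕ} (p q : ℝ) (hpq : p + q = 1) :
    ER (n := n) p q (fun _ => (1 : ℝ)) = 1 := by
  have := row_zero (n := n) p q hpq ∅
  simpa using this

theorem row_T2 {n : ℕ} (p q : ℝ) (hpq : p + q = 1) (Z : Finset (Fin n)) (u v : Fin n)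
    (huv : u ≠ v) (hu : u ∉ Z) (hv : v ∉ Z) :
    ER p q (fun r => if (∀ k ∈ Z, r k = false) ∧ r u = r v then (1 : ℝ) else 0) =
      q ^ Z.card * (p ^ 2 + q ^ 2) := by
  classical
  let c : Bool → Fin n → Bool := fun t j => if j = u ∨ j = v then t else false
  have hind : ∀ r : Fin n → Bool,
      (if (∀ k ∈ Z, r k = false) ∧ r u = r v then (1 : ℝ) else 0) =
      ∑ t : Bool, (if ∀ k ∈ insert u (insert v Z), r k = c t k then (1 : ℝ) else 0) := by
    intro r
    have key : ∀ t : Bool, (∀ k ∈ insert u (insert v Z), r k = c t k) ↔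
        ((∀ k ∈ Z, r k = false) ∧ r u = t ∧ r v = t) := by
      intro t
      constructor
      · intro h
        refine ⟨fun k hk => ?_, ?_, ?_⟩
        · have := h k (by simp [hk])
          rw [this]
          have h1 : k ≠ u := fun e => hu (e ▸ hk)
          have h2 : k ≠ v := fun e => hv (e ▸ hk)
          simp [c, h1, h2]
        · simpa [c] using h u (by simp)
        · simpa [c] using h v (by simp)
      · rintro ⟨h1, h2, h3⟩ k hk
        rw [Finset.mem_insert, Finset.mem_insert] at hk
        rcases hk with rfl | rfl | hk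
        · simp [c, h2]
        · simp [c, h3]
        · have h4 : k ≠ u := fun e => hu (e ▸ hk)
          have h5 : k ≠ v := fun e => hv (e ▸ hk)
          simp [c, h4, h5, h1 k hk]
    simp_rw [key]
    rw [Fintype.sum_bool]
    by_cases hz : ∀ k ∈ Z, r k = false
    · cases h1 : r u <;> cases h2 : r v <;> simp [hz]
    · simp [hz]
  rw [ER]
  simp_rw [hind, Finset.mul_sum]
  rw [Finset.sum_comm]
  have hc := fun t => row_cyl p q hpq (insert u (insert v Z)) (c t)
  simp only [ER] at hc
  simp_rw [hc]
  have hprod : ∀ t : Bool, ∏ k ∈ insert u (insert v Z), wt p q (c t k) =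
      wt p q t * (wt p q t * q ^ Z.card) := by
    intro t
    rw [Finset.prod_insert (by simp [huv, hu]), Finset.prod_insert hv]
    have h1 : c t u = t := by simp [c]
    have h2 : c t v = t := by simp [c]
    rw [h1, h2]
    congr 2
    rw [← Finset.prod_const]
    refine Finset.prod_congr rfl fun k hk => ?_
    have h4 : k ≠ u := fun e => hu (e ▸ hk)
    have h5 : k ≠ v := fun e => hv (e ▸ hk)
    simp [c, h4, h5, wt]
  simp_rw [hprod]
  rw [Fintype.sum_bool]
  simp only [wt]
  simp only [if_true, Bool.false_eq_true, if_false]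
  ring

theorem row_T4 {n : ℕ} (p q : ℝ) (hpq : p + q = 1) (Z : Finset (Fin n)) (u v w : Fin n)
    (huv : u ≠ v) (huw : u ≠ w) (hvw : v ≠ w) (hu : u ∉ Z) (hv : v ∉ Z) (hw : w ∉ Z) :
    ER p q (fun r => if (∀ k ∈ Z, r k = false) ∧ r u = r v ∧ r u = r w then (1 : ℝ) else 0) =
      q ^ Z.card * (p ^ 3 + q ^ 3) := by
  classical
  let c : Bool → Fin n → Bool := fun t j => if j = u ∨ j = v ∨ j = w then t else false
  have hind : ∀ r : Fin n → Bool,
      (if (∀ k ∈ Z, r k = false) ∧ r u = r v ∧ r u = r w then (1 : ℝ) else 0) =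
      ∑ t : Bool, (if ∀ k ∈ insert u (insert v (insert w Z)), r k = c t k then (1 : ℝ) else 0) := by
    intro r
    have key : ∀ t : Bool, (∀ k ∈ insert u (insert v (insert w Z)), r k = c t k) ↔
        ((∀ k ∈ Z, r k = false) ∧ r u = t ∧ r v = t ∧ r w = t) := by
      intro t
      constructor
      · intro h
        refine ⟨fun k hk => ?_, ?_, ?_, ?_⟩
        · have := h k (by simp [hk])
          rw [this]
          have h1 : k ≠ u := fun e => hu (e ▸ hk)
          have h2 : k ≠ v := fun e => hv (e ▸ hk)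
          have h3 : k ≠ w := fun e => hw (e ▸ hk)
          simp [c, h1, h2, h3]
        · simpa [c] using h u (by simp)
        · simpa [c] using h v (by simp)
        · simpa [c] using h w (by simp)
      · rintro ⟨h1, h2, h3, h3'⟩ k hk
        rw [Finset.mem_insert, Finset.mem_insert, Finset.mem_insert] at hk
        rcases hk with rfl | rfl | rfl | hk
        · simp [c, h2]
        · simp [c, h3]
        · simp [c, h3']
        · have h4 : k ≠ u := fun e => hu (e ▸ hk)
          have h5 : k ≠ v := fun e => hv (e ▸ hk)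
          have h6 : k ≠ w := fun e => hw (e ▸ hk)
          simp [c, h4, h5, h6, h1 k hk]
    simp_rw [key]
    rw [Fintype.sum_bool]
    by_cases hz : ∀ k ∈ Z, r k = false
    · cases h1 : r u <;> cases h2 : r v <;> cases h3 : r w <;> simp [hz]
    · simp [hz]
  rw [ER]
  simp_rw [hind, Finset.mul_sum]
  rw [Finset.sum_comm]
  have hc := fun t => row_cyl p q hpq (insert u (insert v (insert w Z))) (c t)
  simp only [ER] at hc
  simp_rw [hc]
  have hprod : ∀ t : Bool, ∏ k ∈ insert u (insert v (insert w Z)), wt p q (c t k) =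
      wt p q t * (wt p q t * (wt p q t * q ^ Z.card)) := by
    intro t
    rw [Finset.prod_insert (by simp [huv, huw, hu]), Finset.prod_insert (by simp [hvw, hv]),
      Finset.prod_insert hw]
    have h1 : c t u = t := by simp [c]
    have h2 : c t v = t := by simp [c]
    have h3 : c t w = t := by simp [c]
    rw [h1, h2, h3]
    congr 3
    rw [← Finset.prod_const]
    refine Finset.prod_congr rfl fun k hk => ?_
    have h4 : k ≠ u := fun e => hu (e ▸ hk)
    have h5 : k ≠ v := fun e => hv (e ▸ hk)
    have h6 : k ≠ w := fun e => hw (e ▸ hk)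
    simp [c, h4, h5, h6, wt]
  simp_rw [hprod]
  rw [Fintype.sum_bool]
  simp only [wt]
  simp only [if_true, Bool.false_eq_true, if_false]
  ring

theorem row_T3 {n : ℕ} (p q : ℝ) (hpq : p + q = 1) (Z : Finset (Fin n)) (u u' v v' : Fin n)
    (h12 : u ≠ u') (h13 : u ≠ v) (h14 : u ≠ v') (h23 : u' ≠ v) (h24 : u' ≠ v') (h34 : v ≠ v')
    (hu : u ∉ Z) (hu' : u' ∉ Z) (hv : v ∉ Z) (hv' : v' ∉ Z) :
    ER p q (fun r => if (∀ k ∈ Z, r k = false) ∧ r u = r u' ∧ r v = r v' then (1 : ℝ) else 0) =
      q ^ Z.card * (p ^ 2 + q ^ 2) ^ 2 := by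
  classical
  let c : Bool × Bool → Fin n → Bool := fun t j => if j = u ∨ j = u' then t.1 else
    if j = v ∨ j = v' then t.2 else false
  have hind : ∀ r : Fin n → Bool,
      (if (∀ k ∈ Z, r k = false) ∧ r u = r u' ∧ r v = r v' then (1 : ℝ) else 0) =
      ∑ t : Bool × Bool, (if ∀ k ∈ insert u (insert u' (insert v (insert v' Z))), r k = c t k
        then (1 : ℝ) else 0) := by
    intro r
    have key : ∀ t : Bool × Bool, (∀ k ∈ insert u (insert u' (insert v (insert v' Z))), r k = c t k) ↔
        ((∀ k ∈ Z, r k = false) ∧ r u = t.1 ∧ r u' = t.1 ∧ r v = t.2 ∧ r v' = t.2) := by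
      intro t
      constructor
      · intro h
        refine ⟨fun k hk => ?_, ?_, ?_, ?_, ?_⟩
        · have := h k (by simp [hk])
          rw [this]
          have h1 : k ≠ u := fun e => hu (e ▸ hk)
          have h2 : k ≠ u' := fun e => hu' (e ▸ hk)
          have h3 : k ≠ v := fun e => hv (e ▸ hk)
          have h4 : k ≠ v' := fun e => hv' (e ▸ hk)
          simp [c, h1, h2, h3, h4]
        · simpa [c] using h u (by simp)
        · simpa [c] using h u' (by simp)
        · simpa [c, h13.symm, h23.symm] using h v (by simp)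
        · simpa [c, h14.symm, h24.symm] using h v' (by simp)
      · rintro ⟨h1, h2, h3, h4, h5⟩ k hk
        simp only [Finset.mem_insert] at hk
        rcases hk with rfl | rfl | rfl | rfl | hk
        · simp [c, h2]
        · simp [c, h3]
        · simp [c, h4, h13.symm, h23.symm]
        · simp [c, h5, h14.symm, h24.symm]
        · have h1' : k ≠ u := fun e => hu (e ▸ hk)
          have h2' : k ≠ u' := fun e => hu' (e ▸ hk)
          have h3' : k ≠ v := fun e => hv (e ▸ hk)
          have h4' : k ≠ v' := fun e => hv' (e ▸ hk)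
          simp [c, h1', h2', h3', h4', h1 k hk]
    simp_rw [key]
    rw [Fintype.sum_prod_type]
    simp only [Fintype.sum_bool]
    by_cases hz : ∀ k ∈ Z, r k = false
    · cases h1 : r u <;> cases h2 : r u' <;> cases h3 : r v <;> cases h4 : r v' <;> simp [hz]
    · simp [hz]
  rw [ER]
  simp_rw [hind, Finset.mul_sum]
  rw [Finset.sum_comm]
  have hc := fun t => row_cyl p q hpq (insert u (insert u' (insert v (insert v' Z)))) (c t)
  simp only [ER] at hc
  simp_rw [hc]
  have hprod : ∀ t : Bool × Bool, ∏ k ∈ insert u (insert u' (insert v (insert v' Z))), wt p q (c t k) =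
      wt p q t.1 * (wt p q t.1 * (wt p q t.2 * (wt p q t.2 * q ^ Z.card))) := by
    intro t
    rw [Finset.prod_insert (by simp [h12, h13, h14, hu]), Finset.prod_insert (by simp [h23, h24, hu']),
      Finset.prod_insert (by simp [h34, hv]), Finset.prod_insert hv']
    have h1 : c t u = t.1 := by simp [c]
    have h2 : c t u' = t.1 := by simp [c]
    have h3 : c t v = t.2 := by simp [c, h13.symm, h23.symm]
    have h4 : c t v' = t.2 := by simp [c, h14.symm, h24.symm]
    rw [h1, h2, h3, h4]
    congr 4
    rw [← Finset.prod_const]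
    refine Finset.prod_congr rfl fun k hk => ?_
    have h1' : k ≠ u := fun e => hu (e ▸ hk)
    have h2' : k ≠ u' := fun e => hu' (e ▸ hk)
    have h3' : k ≠ v := fun e => hv (e ▸ hk)
    have h4' : k ≠ v' := fun e => hv' (e ▸ hk)
    simp [c, h1', h2', h3', h4', wt]
  simp_rw [hprod]
  rw [Fintype.sum_prod_type]
  simp only [Fintype.sum_bool]
  simp only [wt]
  simp only [if_true, Bool.false_eq_true, if_false]
  ring

end Pool.Agent.W120.BC
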