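import Mathlib
import Pool.Agent.W120.BC.Row
import Pool.Agent.W120.BC.Det

set_option autoImplicit false
open scoped Classical

namespace Pool.Agent.W120.BC

variable {n : ℕ}

theorem ite_mul_ite (P Q R : Prop) [Decidable P] [Decidable Q] [Decidable R] (h : (P ∧ Q) ↔ R) :
    ((if P then (1:ℝ) else 0) * (if Q then (1:ℝ) else 0)) = if R then 1 else 0 := by
  by_cases hR : R
  · have := h.2 hR
    simp [this.1, this.2, hR]
  · by_cases hP : P
    · have hQ : ¬ Q := fun hQ => hR (h.1 ⟨hP, hQ⟩)
      simp [hQ, hR]
    · simp [hP, hR]

/-- The elements of `W` above `i`. -/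
noncomputable def lt' (W : Finset (Fin n)) (i : Fin n) : Finset (Fin n) := W.filter (fun j => i < j)

theorem sum_lt' (W : Finset (Fin n)) : ∑ i ∈ W, (lt' W i).card = W.card.choose 2 := by
  classical
  induction W using Finset.induction_on_max with
  | empty => simp
  | insert a W hW ih =>
    have ha : a ∉ W := fun h => lt_irrefl _ (hW a h)
    rw [Finset.sum_insert ha, Finset.card_insert_of_notMem ha]
    have h1 : lt' (insert a W) a = ∅ := by
      rw [lt', Finset.filter_eq_empty_iff]
      intro x hx
      rw [Finset.mem_insert] at hx
      rcases hx with rfl | hx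
      · exact lt_irrefl _
      · exact lt_asymm (hW x hx)
    have h2 : ∀ i ∈ W, (lt' (insert a W) i).card = (lt' W i).card + 1 := by
      intro i hi
      have : lt' (insert a W) i = insert a (lt' W i) := by
        rw [lt', lt', Finset.filter_insert, if_pos (hW i hi)]
      rw [this, Finset.card_insert_of_notMem]
      intro h
      exact ha (Finset.mem_filter.1 h).1
    rw [h1, Finset.sum_congr rfl h2, Finset.sum_add_distrib, ih]
    simp only [Finset.card_empty, zero_add, Finset.sum_const, smul_eq_mul, mul_one]
    rw [Nat.choose_succ_succ' W.card 1, Nat.choose_one_right]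
    ring

/-- The row events of the structure. -/
noncomputable def hS (W : Finset (Fin n)) (u u' : Fin n) (i : Fin n) (r : Fin n → Bool) : ℝ :=
  (if i ∈ W then (if (∀ k ∈ lt' W i, r k = false) ∧ r u = r u' then 1 else 0) else 1) *
  (if i = u then (if r u' = false then 1 else 0) else 1)

noncomputable def IS (W : Finset (Fin n)) (u u' : Fin n) (x : Fin n → Fin n → Bool) : ℝ :=
  ∏ i, hS W u u' i (x i)

theorem IS_eq (W : Finset (Fin n)) (u u' : Fin n) (hu : ∀ w ∈ W, w < u) (huu : u < u')
    (x : Fin n → Fin n → Bool) :
    IS W u u' x = if Struct (gr x) W u u' then 1 else 0 := by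
  classical
  have huW : u ∉ W := fun h => lt_irrefl _ (hu u h)
  by_cases h : Struct (gr x) W u u'
  · rw [if_pos h]
    obtain ⟨h1, h2, h3⟩ := h
    refine Finset.prod_eq_one fun i _ => ?_
    rw [hS]
    have e1 : (if i ∈ W then (if (∀ k ∈ lt' W i, x i k = false) ∧ x i u = x i u' then (1:ℝ) else 0)
        else 1) = 1 := by
      by_cases hi : i ∈ W
      · rw [if_pos hi, if_pos]
        refine ⟨fun k hk => ?_, ?_⟩
        · rw [lt', Finset.mem_filter] at hk
          have := h1 i hi k hk.1
          rw [gr_adj x hk.2] at this
          simpa using this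
        · have := h2 i hi
          rw [gr_adj x (hu i hi), gr_adj x ((hu i hi).trans huu)] at this
          exact Bool.eq_iff_iff.2 this
      · rw [if_neg hi]
    have e2 : (if i = u then (if x i u' = false then (1:ℝ) else 0) else 1) = 1 := by
      by_cases hi : i = u
      · rw [if_pos hi, if_pos]
        rw [gr_adj x huu] at h3
        rw [hi]
        simpa using h3
      · rw [if_neg hi]
    rw [e1, e2, one_mul]
  · rw [if_neg h]
    by_contra hne
    apply h
    have hall : ∀ i, hS W u u' i (x i) ≠ 0 := by
      intro i hi
      exact hne (Finset.prod_eq_zero (Finset.mem_univ i) hi)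
    have hA : ∀ i ∈ W, (∀ k ∈ lt' W i, x i k = false) ∧ x i u = x i u' := by
      intro i hi
      by_contra hc
      apply hall i
      rw [hS, if_pos hi, if_neg hc, zero_mul]
    have hB : x u u' = false := by
      by_contra hc
      apply hall u
      rw [hS, if_pos rfl, if_neg hc, mul_zero]
    refine ⟨?_, ?_, ?_⟩
    · intro i hi j hj
      rcases lt_trichotomy i j with hij | hij | hij
      · rw [gr_adj x hij]
        have := (hA i hi).1 j (by rw [lt', Finset.mem_filter]; exact ⟨hj, hij⟩)
        simp [this]
      · subst hij; exact (gr x).loopless.irrefl _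
      · rw [(gr x).adj_comm, gr_adj x hij]
        have := (hA j hj).1 i (by rw [lt', Finset.mem_filter]; exact ⟨hi, hij⟩)
        simp [this]
    · intro w hw
      rw [gr_adj x (hu w hw), gr_adj x ((hu w hw).trans huu), (hA w hw).2]
    · rw [gr_adj x huu, hB]; simp

theorem exp_IS (p q : ℝ) (hpq : p + q = 1) (W : Finset (Fin n)) (u u' : Fin n)
    (hu : ∀ w ∈ W, w < u) (huu : u < u') :
    ∑ x : Fin n → Fin n → Bool, mu p q x * IS W u u' x =
      q ^ (W.card.choose 2) * (p ^ 2 + q ^ 2) ^ W.card * q := by
  classical
  have huW : u ∉ W := fun h => lt_irrefl _ (hu u h)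
  have hu'W : u' ∉ W := fun h => lt_asymm huu (hu u' h)
  simp only [IS]
  rw [sum_mu_prod p q (fun i r => hS W u u' i r)]
  have hrow : ∀ i : Fin n, ∑ r : Fin n → Bool, rw' p q r * hS W u u' i r =
      (if i ∈ W then q ^ (lt' W i).card * (p ^ 2 + q ^ 2) else 1) * (if i = u then q else 1) := by
    intro i
    by_cases hi : i ∈ W
    · have hiu : i ≠ u := fun e => huW (e ▸ hi)
      have := row_T2 p q hpq (lt' W i) u u' huu.ne (fun h => huW (Finset.mem_filter.1 h).1)
        (fun h => hu'W (Finset.mem_filter.1 h).1)
      rw [ER] at this
      simp only [hS, if_pos hi, if_neg hiu, mul_one]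
      exact this
    · by_cases hiu : i = u
      · subst hiu
        simp only [hS, if_neg hi, if_true, one_mul]
        have := row_zero p q hpq ({u'} : Finset (Fin n))
        rw [ER] at this
        simpa using this
      · simp only [hS, if_neg hi, if_neg hiu, mul_one]
        have := row_one (n := n) p q hpq
        rw [ER] at this
        simpa using this
  simp_rw [hrow]
  rw [Finset.prod_mul_distrib, Finset.prod_ite_mem, Finset.univ_inter,
    Finset.prod_ite_eq' Finset.univ u (fun _ => q), if_pos (Finset.mem_univ u),
    Finset.prod_mul_distrib, Finset.prod_const, Finset.prod_pow_eq_pow_sum, sum_lt']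

/-- The pair factor. -/
noncomputable def kap (p q : ℝ) (u u' v v' : Fin n) : ℝ :=
  if u = v then (if u' = v' then (p ^ 2 + q ^ 2) else p ^ 3 + q ^ 3)
    else (if u' = v' then p ^ 3 + q ^ 3 else (p ^ 2 + q ^ 2) ^ 2)

noncomputable def rho (q : ℝ) (u u' v v' : Fin n) : ℝ := if u = v ∧ u' = v' then q⁻¹ else 1

theorem exp_pair (p q : ℝ) (hpq : p + q = 1) (hq : 0 < q) (hp : 0 < p)
    (W W' : Finset (Fin n)) (u u' v v' : Fin n)
    (hu : ∀ w ∈ W, w < u) (hv : ∀ w ∈ W', w < v)
    (hu2 : ∀ w ∈ W', w < u) (hv2 : ∀ w ∈ W, w < v)
    (huu : u < u') (hvv : v < v') (huv' : u < v') (hvu' : v < u') :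
    ∑ x : Fin n → Fin n → Bool, mu p q x * (IS W u u' x * IS W' v v' x) =
      (q ^ (W.card.choose 2) * (p ^ 2 + q ^ 2) ^ W.card * q) *
      (q ^ (W'.card.choose 2) * (p ^ 2 + q ^ 2) ^ W'.card * q) *
      ((q ^ ((W ∩ W').card.choose 2))⁻¹ *
        (kap p q u u' v v' / (p ^ 2 + q ^ 2) ^ 2) ^ (W ∩ W').card * rho q u u' v v') := by
  classical
  have hs : 0 < p ^ 2 + q ^ 2 := by positivity
  have huW : u ∉ W := fun h => lt_irrefl _ (hu u h)
  have hu'W : u' ∉ W := fun h => lt_asymm huu (hu u' h)
  have hvW' : v ∉ W' := fun h => lt_irrefl _ (hv v h)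
  have hv'W' : v' ∉ W' := fun h => lt_asymm hvv (hv v' h)
  have huW' : u ∉ W' := fun h => lt_irrefl _ (hu2 u h)
  have hu'W' : u' ∉ W' := fun h => lt_asymm huu (hu2 u' h)
  have hvW : v ∉ W := fun h => lt_irrefl _ (hv2 v h)
  have hv'W : v' ∉ W := fun h => lt_asymm hvv (hv2 v' h)
  simp only [IS]
  simp_rw [← Finset.prod_mul_distrib]
  rw [sum_mu_prod p q (fun i r => hS W u u' i r * hS W' v v' i r)]
  have hrow : ∀ i : Fin n, ∑ r : Fin n → Bool, rw' p q r * (hS W u u' i r * hS W' v v' i r) =
      ((if i ∈ W then q ^ (lt' W i).card * (p ^ 2 + q ^ 2) else 1) * (if i = u then q else 1)) *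
      ((if i ∈ W' then q ^ (lt' W' i).card * (p ^ 2 + q ^ 2) else 1) * (if i = v then q else 1)) *
      ((if i ∈ W ∩ W' then (q ^ (lt' (W ∩ W') i).card)⁻¹ *
        (kap p q u u' v v' / (p ^ 2 + q ^ 2) ^ 2) else 1) *
        (if i = u then rho q u u' v v' else 1)) := by
    intro i
    by_cases hi : i ∈ W
    · have hiu : i ≠ u := fun e => huW (e ▸ hi)
      have hiv : i ≠ v := fun e => hvW (e ▸ hi)
      by_cases hi' : i ∈ W'
      · have hii : i ∈ W ∩ W' := Finset.mem_inter.2 ⟨hi, hi'⟩
        simp only [hS, if_pos hi, if_pos hi', if_neg hiu, if_neg hiv, if_pos hii, mul_one]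
        have hcomb : ∀ r : Fin n → Bool,
            ((if (∀ k ∈ lt' W i, r k = false) ∧ r u = r u' then (1:ℝ) else 0) *
            (if (∀ k ∈ lt' W' i, r k = false) ∧ r v = r v' then (1:ℝ) else 0)) =
            (if (∀ k ∈ lt' W i ∪ lt' W' i, r k = false) ∧ (r u = r u' ∧ r v = r v')
              then (1:ℝ) else 0) := by
          intro r
          apply ite_mul_ite
          constructor
          · rintro ⟨⟨a1, a2⟩, b1, b2⟩
            refine ⟨fun k hk => ?_, a2, b2⟩
            rw [Finset.mem_union] at hk
            rcases hk with hk | hk
            · exact a1 k hk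
            · exact b1 k hk
          · rintro ⟨a, b1, b2⟩
            exact ⟨⟨fun k hk => a k (Finset.mem_union_left _ hk), b1⟩,
              fun k hk => a k (Finset.mem_union_right _ hk), b2⟩
        simp_rw [hcomb]
        have hZu : u ∉ lt' W i ∪ lt' W' i := by
          rw [Finset.mem_union]; rintro (h | h)
          · exact huW (Finset.mem_filter.1 h).1
          · exact huW' (Finset.mem_filter.1 h).1
        have hZu' : u' ∉ lt' W i ∪ lt' W' i := by
          rw [Finset.mem_union]; rintro (h | h)
          · exact hu'W (Finset.mem_filter.1 h).1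
          · exact hu'W' (Finset.mem_filter.1 h).1
        have hZv : v ∉ lt' W i ∪ lt' W' i := by
          rw [Finset.mem_union]; rintro (h | h)
          · exact hvW (Finset.mem_filter.1 h).1
          · exact hvW' (Finset.mem_filter.1 h).1
        have hZv' : v' ∉ lt' W i ∪ lt' W' i := by
          rw [Finset.mem_union]; rintro (h | h)
          · exact hv'W (Finset.mem_filter.1 h).1
          · exact hv'W' (Finset.mem_filter.1 h).1
        have hmain : ∑ r : Fin n → Bool, rw' p q r *
            (if (∀ k ∈ lt' W i ∪ lt' W' i, r k = false) ∧ (r u = r u' ∧ r v = r v')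
              then (1:ℝ) else 0) = q ^ (lt' W i ∪ lt' W' i).card * kap p q u u' v v' := by
          by_cases huv : u = v
          · by_cases huv2 : u' = v'
            · subst huv; subst huv2
              have := row_T2 p q hpq (lt' W i ∪ lt' W' i) u u' huu.ne hZu hZu'
              rw [ER] at this
              simp only [kap, if_true, and_self]
              exact this
            · subst huv
              have := row_T4 p q hpq (lt' W i ∪ lt' W' i) u u' v' huu.ne hvv.ne huv2 hZu hZu' hZv'
              rw [ER] at this
              simp only [kap, if_true, if_neg huv2]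
              exact this
          · by_cases huv2 : u' = v'
            · subst huv2
              have := row_T4 p q hpq (lt' W i ∪ lt' W' i) u' u v huu.ne' hvv.ne' huv hZu' hZu hZv
              rw [ER] at this
              simp only [kap, if_true, if_neg huv]
              rw [← this]
              refine Finset.sum_congr rfl fun r _ => ?_
              congr 2
              apply propext
              constructor
              · rintro ⟨a, b, c⟩; exact ⟨a, b.symm, c.symm⟩
              · rintro ⟨a, b, c⟩; exact ⟨a, b.symm, c.symm⟩
            · have := row_T3 p q hpq (lt' W i ∪ lt' W' i) u u' v v' huu.ne huv huv'.ne hvu'.ne'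
                huv2 hvv.ne hZu hZu' hZv hZv'
              rw [ER] at this
              simp only [kap, if_neg huv2, if_neg huv]
              exact this
        rw [hmain]
        have hcard : (lt' W i ∪ lt' W' i).card + (lt' (W ∩ W') i).card =
            (lt' W i).card + (lt' W' i).card := by
          have : lt' (W ∩ W') i = lt' W i ∩ lt' W' i := by
            ext k
            simp only [lt', Finset.mem_filter, Finset.mem_inter]
            tauto
          rw [this]
          exact Finset.card_union_add_card_inter _ _
        have hpow : q ^ (lt' W i ∪ lt' W' i).card * q ^ (lt' (W ∩ W') i).card =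
            q ^ (lt' W i).card * q ^ (lt' W' i).card := by
          rw [← pow_add, ← pow_add, hcard]
        have hqne : q ^ (lt' (W ∩ W') i).card ≠ 0 := by positivity
        have hsne : (p ^ 2 + q ^ 2) ≠ 0 := hs.ne'
        field_simp
        linear_combination (kap p q u u' v v') * hpow
      · have hii : i ∉ W ∩ W' := fun h => hi' (Finset.mem_inter.1 h).2
        simp only [hS, if_pos hi, if_neg hi', if_neg hiu, if_neg hiv, if_neg hii, mul_one]
        have := row_T2 p q hpq (lt' W i) u u' huu.ne (fun h => huW (Finset.mem_filter.1 h).1)
          (fun h => hu'W (Finset.mem_filter.1 h).1)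
        rw [ER] at this
        exact this
    · have hii : i ∉ W ∩ W' := fun h => hi (Finset.mem_inter.1 h).1
      by_cases hi' : i ∈ W'
      · have hiu : i ≠ u := fun e => huW' (e ▸ hi')
        have hiv : i ≠ v := fun e => hvW' (e ▸ hi')
        simp only [hS, if_neg hi, if_pos hi', if_neg hiu, if_neg hiv, if_neg hii, mul_one, one_mul]
        have := row_T2 p q hpq (lt' W' i) v v' hvv.ne (fun h => hvW' (Finset.mem_filter.1 h).1)
          (fun h => hv'W' (Finset.mem_filter.1 h).1)
        rw [ER] at this
        exact this
      · simp only [hS, if_neg hi, if_neg hi', if_neg hii, one_mul]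
        by_cases hiu : i = u
        · subst hiu
          by_cases hiv : i = v
          · subst hiv
            simp only [if_true]
            by_cases huv2 : u' = v'
            · subst huv2
              have := row_zero p q hpq ({u'} : Finset (Fin n))
              rw [ER] at this
              simp only [Finset.mem_singleton, forall_eq, Finset.card_singleton, pow_one] at this
              have h2 : ∀ r : Fin n → Bool, ((if r u' = false then (1:ℝ) else 0) *
                  (if r u' = false then (1:ℝ) else 0)) = (if r u' = false then (1:ℝ) else 0) := by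
                intro r; split_ifs <;> simp
              simp_rw [h2]
              rw [this]
              simp only [rho, and_self, if_true]
              field_simp
            · have := row_zero p q hpq ({u', v'} : Finset (Fin n))
              rw [ER, Finset.card_pair huv2] at this
              simp only [rho, huv2, and_false, if_false, mul_one]
              rw [← pow_two, ← this]
              refine Finset.sum_congr rfl fun r _ => ?_
              congr 1
              apply ite_mul_ite
              simp
          · simp only [if_true, if_neg hiv, mul_one]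
            have := row_zero p q hpq ({u'} : Finset (Fin n))
            rw [ER] at this
            simp only [Finset.mem_singleton, forall_eq, Finset.card_singleton, pow_one] at this
            rw [this]
            simp [rho, hiv]
        · simp only [if_neg hiu, one_mul, mul_one]
          by_cases hiv : i = v
          · subst hiv
            simp only [if_true]
            have := row_zero p q hpq ({v'} : Finset (Fin n))
            rw [ER] at this
            simp only [Finset.mem_singleton, forall_eq, Finset.card_singleton, pow_one] at this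
            exact this
          · simp only [if_neg hiv]
            have := row_one (n := n) p q hpq
            rw [ER] at this
            simpa using this
  simp_rw [hrow]
  have hprod : ∀ (T : Finset (Fin n)) (y : Fin n) (f : Fin n → ℝ) (c : ℝ),
      ∏ i : Fin n, ((if i ∈ T then f i else 1) * (if i = y then c else 1)) = (∏ i ∈ T, f i) * c := by
    intro T y f c
    rw [Finset.prod_mul_distrib, Finset.prod_ite_mem, Finset.univ_inter,
      Finset.prod_ite_eq' Finset.univ y (fun _ => c), if_pos (Finset.mem_univ y)]
  rw [Finset.prod_mul_distrib, Finset.prod_mul_distrib, hprod, hprod, hprod]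
  rw [Finset.prod_mul_distrib, Finset.prod_const, Finset.prod_pow_eq_pow_sum, sum_lt']
  rw [Finset.prod_mul_distrib, Finset.prod_const, Finset.prod_pow_eq_pow_sum, sum_lt']
  rw [Finset.prod_mul_distrib, Finset.prod_const, Finset.prod_inv_distrib,
    Finset.prod_pow_eq_pow_sum, sum_lt']

end Pool.Agent.W120.BC
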