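import Mathlib
import Pool.Agent.W120.BC.Ev

set_option autoImplicit false
open scoped Classical

namespace Pool.Agent.W120.BC

variable {n : ℕ}

/-- The block `[s, t)` of vertices. -/
noncomputable def blk (n s t : ℕ) : Finset (Fin n) := Finset.univ.filter (fun i => s ≤ i.val ∧ i.val < t)

theorem mem_blk {n s t : ℕ} (i : Fin n) : i ∈ blk n s t ↔ s ≤ i.val ∧ i.val < t := by
  simp [blk]

theorem card_blk {n s t : ℕ} (h : t ≤ n) : (blk n s t).card = t - s := by
  classical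
  have : (blk n s t).card = (Finset.Ico s t).card := by
    refine Finset.card_bij (fun i _ => i.val) ?_ ?_ ?_
    · intro i hi
      rw [mem_blk] at hi
      exact Finset.mem_Ico.2 hi
    · intro i _ j _ hij
      exact Fin.ext hij
    · intro b hb
      rw [Finset.mem_Ico] at hb
      exact ⟨⟨b, lt_of_lt_of_le hb.2 h⟩, (mem_blk _).2 hb, rfl⟩
  rw [this, Nat.card_Ico]

theorem mu_nonneg {p q : ℝ} (hp : 0 ≤ p) (hq : 0 ≤ q) (x : Fin n → Fin n → Bool) : 0 ≤ mu p q x := by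
  refine Finset.prod_nonneg fun i _ => Finset.prod_nonneg fun j _ => ?_
  rw [wt]; split_ifs <;> assumption

/-- Counting pairs of sets by their intersection. -/
theorem sum_inter_le {α : Type*} [DecidableEq α] (A : Finset α) (a : ℕ) (g : ℕ → ℝ) (hg : ∀ j, 0 ≤ g j)
    (W : Finset α) (hW : W ∈ A.powersetCard a) :
    ∑ W' ∈ A.powersetCard a, g (W ∩ W').card ≤
      ∑ j ∈ Finset.range (a + 1), (a.choose j : ℝ) * ((A.card - a).choose (a - j) : ℝ) * g j := by
  classical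
  rw [Finset.mem_powersetCard] at hW
  have hmaps : ∀ W' ∈ A.powersetCard a, (W ∩ W').card ∈ Finset.range (a + 1) := by
    intro W' _
    rw [Finset.mem_range, Nat.lt_succ_iff, ← hW.2]
    exact Finset.card_le_card Finset.inter_subset_left
  rw [← Finset.sum_fiberwise_of_maps_to hmaps]
  refine Finset.sum_le_sum fun j hj => ?_
  have h1 : ∑ W' ∈ (A.powersetCard a).filter (fun W' => (W ∩ W').card = j), g (W ∩ W').card =
      (((A.powersetCard a).filter (fun W' => (W ∩ W').card = j)).card : ℝ) * g j := by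
    rw [← nsmul_eq_mul, ← Finset.sum_const]
    refine Finset.sum_congr rfl fun W' hW' => ?_
    rw [(Finset.mem_filter.1 hW').2]
  rw [h1]
  refine mul_le_mul_of_nonneg_right ?_ (hg j)
  have h2 : ((A.powersetCard a).filter (fun W' => (W ∩ W').card = j)).card ≤
      ((W.powersetCard j) ×ˢ ((A \ W).powersetCard (a - j))).card := by
    refine Finset.card_le_card_of_injOn (fun W' => (W ∩ W', W' \ W)) ?_ ?_
    · intro W' hW'
      rw [Finset.mem_coe, Finset.mem_filter, Finset.mem_powersetCard] at hW'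
      rw [Finset.mem_coe, Finset.mem_product, Finset.mem_powersetCard, Finset.mem_powersetCard]
      refine ⟨⟨Finset.inter_subset_left, hW'.2⟩, Finset.sdiff_subset_sdiff hW'.1.1 (Finset.Subset.refl _), ?_⟩
      have := Finset.card_sdiff_add_card_inter W' W
      rw [Finset.inter_comm, hW'.2, hW'.1.2] at this
      show (W' \ W).card = a - j
      omega
    · intro W1 h1 W2 h2 h12
      simp only [Prod.mk.injEq] at h12
      have e1 : W1 = (W ∩ W1) ∪ (W1 \ W) := by
        rw [Finset.inter_comm, Finset.union_comm, Finset.sdiff_union_inter]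
      have e2 : W2 = (W ∩ W2) ∪ (W2 \ W) := by
        rw [Finset.inter_comm, Finset.union_comm, Finset.sdiff_union_inter]
      rw [e1, e2, h12.1, h12.2]
  rw [Finset.card_product, Finset.card_powersetCard, Finset.card_powersetCard,
    Finset.card_sdiff_of_subset hW.1, hW.2] at h2
  exact_mod_cast h2

/-- The structures considered. -/
noncomputable def SS (n m l a : ℕ) : Finset (Finset (Fin n) × Fin n × Fin n) :=
  ((blk n 0 m).powersetCard a) ×ˢ ((blk n m (m + l)) ×ˢ (blk n (m + l) (m + 2 * l)))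

theorem mem_SS {n m l a : ℕ} (S : Finset (Fin n) × Fin n × Fin n) (h : S ∈ SS n m l a) :
    S.1.card = a ∧ S.1 ∈ (blk n 0 m).powersetCard a ∧ (∀ w ∈ S.1, w.val < m) ∧
    (m ≤ S.2.1.val ∧ S.2.1.val < m + l) ∧ (m + l ≤ S.2.2.val ∧ S.2.2.val < m + 2 * l) := by
  rw [SS, Finset.mem_product, Finset.mem_product, mem_blk, mem_blk] at h
  refine ⟨(Finset.mem_powersetCard.1 h.1).2, h.1, fun w hw => ?_, h.2.1, h.2.2⟩
  exact ((mem_blk _).1 ((Finset.mem_powersetCard.1 h.1).1 hw)).2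

theorem card_SS {n m l a : ℕ} (h : m + 2 * l ≤ n) :
    (SS n m l a).card = m.choose a * (l * l) := by
  rw [SS, Finset.card_product, Finset.card_product, Finset.card_powersetCard,
    card_blk (by omega), card_blk (by omega), card_blk h]
  congr 2
  · omega
  · omega

/-- The sum over the pairs `(u,u')`, `(v,v')`. -/
theorem sum_kap_le (p q : ℝ) (hp : 0 < p) (hq : 0 < q) (C D : Finset (Fin n)) (l : ℕ)
    (hC : C.card = l) (hD : D.card = l) (j : ℕ) :
    ∑ e ∈ C ×ˢ D, ∑ f ∈ C ×ˢ D,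
      ((kap p q e.1 e.2 f.1 f.2 / (p ^ 2 + q ^ 2) ^ 2) ^ j * rho q e.1 e.2 f.1 f.2) ≤
    (l : ℝ) ^ 4 + 2 * (l : ℝ) ^ 3 * ((p ^ 3 + q ^ 3) / (p ^ 2 + q ^ 2) ^ 2) ^ j +
      (l : ℝ) ^ 2 * (q⁻¹ * (1 / (p ^ 2 + q ^ 2)) ^ j) := by
  classical
  have hs : 0 < p ^ 2 + q ^ 2 := by positivity
  set K : ℝ := ((p ^ 3 + q ^ 3) / (p ^ 2 + q ^ 2) ^ 2) ^ j with hK
  have hK0 : 0 ≤ K := by positivity
  set L : ℝ := q⁻¹ * (1 / (p ^ 2 + q ^ 2)) ^ j with hL
  have hL0 : 0 ≤ L := by positivity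
  have hterm : ∀ e f : Fin n × Fin n,
      ((kap p q e.1 e.2 f.1 f.2 / (p ^ 2 + q ^ 2) ^ 2) ^ j * rho q e.1 e.2 f.1 f.2) ≤
      1 + (if e.1 = f.1 then K else 0) + (if e.2 = f.2 then K else 0) + (if e = f then L else 0) := by
    intro e f
    by_cases h1 : e.1 = f.1
    · by_cases h2 : e.2 = f.2
      · have he : e = f := Prod.ext h1 h2
        rw [kap, rho, if_pos h1, if_pos h2, if_pos ⟨h1, h2⟩, if_pos h1, if_pos h2, if_pos he]
        have : (p ^ 2 + q ^ 2) / (p ^ 2 + q ^ 2) ^ 2 = 1 / (p ^ 2 + q ^ 2) := by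
          field_simp
        rw [this, mul_comm, ← hL]
        linarith
      · have he : e ≠ f := fun h => h2 (h ▸ rfl)
        have h12 : ¬ (e.1 = f.1 ∧ e.2 = f.2) := fun h => h2 h.2
        rw [kap, rho, if_pos h1, if_neg h2, if_neg h12, if_pos h1, if_neg h2, if_neg he, mul_one, ← hK]
        linarith
    · have he : e ≠ f := fun h => h1 (h ▸ rfl)
      have h12 : ¬ (e.1 = f.1 ∧ e.2 = f.2) := fun h => h1 h.1
      by_cases h2 : e.2 = f.2
      · rw [kap, rho, if_neg h1, if_pos h2, if_neg h12, if_neg h1, if_pos h2, if_neg he, mul_one, ← hK]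
        linarith
      · rw [kap, rho, if_neg h1, if_neg h2, if_neg h12, if_neg h1, if_neg h2, if_neg he, mul_one,
          div_self (by positivity), one_pow]
        linarith
  refine le_trans (Finset.sum_le_sum fun e _ => Finset.sum_le_sum fun f _ => hterm e f) ?_
  simp only [Finset.sum_add_distrib]
  have s1 : ∑ e ∈ C ×ˢ D, ∑ f ∈ C ×ˢ D, (1 : ℝ) = (l : ℝ) ^ 4 := by
    simp only [Finset.sum_const, Finset.card_product, hC, hD, nsmul_eq_mul, mul_one]
    push_cast; ring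
  have s2 : ∑ e ∈ C ×ˢ D, ∑ f ∈ C ×ˢ D, (if e.1 = f.1 then K else 0) = (l : ℝ) ^ 3 * K := by
    have : ∀ e ∈ C ×ˢ D, ∑ f ∈ C ×ˢ D, (if e.1 = f.1 then K else 0) = (l : ℝ) * K := by
      intro e he
      rw [Finset.mem_product] at he
      rw [Finset.sum_product_right]
      simp only [Finset.sum_ite_eq, he.1, if_true, Finset.sum_const, hD, nsmul_eq_mul]
    rw [Finset.sum_congr rfl this, Finset.sum_const, Finset.card_product, hC, hD, nsmul_eq_mul]
    push_cast; ring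
  have s3 : ∑ e ∈ C ×ˢ D, ∑ f ∈ C ×ˢ D, (if e.2 = f.2 then K else 0) = (l : ℝ) ^ 3 * K := by
    have : ∀ e ∈ C ×ˢ D, ∑ f ∈ C ×ˢ D, (if e.2 = f.2 then K else 0) = (l : ℝ) * K := by
      intro e he
      rw [Finset.mem_product] at he
      rw [Finset.sum_product]
      simp only [Finset.sum_ite_eq, he.2, if_true, Finset.sum_const, hC, nsmul_eq_mul]
    rw [Finset.sum_congr rfl this, Finset.sum_const, Finset.card_product, hC, hD, nsmul_eq_mul]
    push_cast; ring
  have s4 : ∑ e ∈ C ×ˢ D, ∑ f ∈ C ×ˢ D, (if e = f then L else 0) = (l : ℝ) ^ 2 * L := by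
    have : ∀ e ∈ C ×ˢ D, ∑ f ∈ C ×ˢ D, (if e = f then L else 0) = L := by
      intro e he
      rw [Finset.sum_ite_eq, if_pos he]
    rw [Finset.sum_congr rfl this, Finset.sum_const, Finset.card_product, hC, hD, nsmul_eq_mul]
    push_cast; ring
  rw [s1, s2, s3, s4]
  linarith

/-- The event that some structure of `SS` is present. -/
def Ev2 (n m l a : ℕ) (G : SimpleGraph (Fin n)) : Prop :=
  ∃ S ∈ SS n m l a, Struct G S.1 S.2.1 S.2.2

theorem second_moment (p q : ℝ) (hpq : p + q = 1) (hp : 0 < p) (hq : 0 < q) (n m l a : ℕ)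
    (hn : m + 2 * l ≤ n) :
    (m.choose a : ℝ) * (l : ℝ) ^ 4 ≤
      (∑ x : Fin n → Fin n → Bool, mu p q x * (if Ev2 n m l a (gr x) then 1 else 0)) *
      ∑ j ∈ Finset.range (a + 1), (a.choose j : ℝ) * ((m - a).choose (a - j) : ℝ) *
        ((q ^ (j.choose 2))⁻¹ * ((l : ℝ) ^ 4 +
          2 * (l : ℝ) ^ 3 * ((p ^ 3 + q ^ 3) / (p ^ 2 + q ^ 2) ^ 2) ^ j +
          (l : ℝ) ^ 2 * (q⁻¹ * (1 / (p ^ 2 + q ^ 2)) ^ j))) := by
  classical
  have hs : 0 < p ^ 2 + q ^ 2 := by positivity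
  have hmu : ∀ x : Fin n → Fin n → Bool, 0 ≤ mu p q x := mu_nonneg hp.le hq.le
  set I : Finset (Fin n) × Fin n × Fin n → (Fin n → Fin n → Bool) → ℝ :=
    fun S x => IS S.1 S.2.1 S.2.2 x with hI
  set P : ℝ := q ^ (a.choose 2) * (p ^ 2 + q ^ 2) ^ a * q with hP
  have hP0 : 0 < P := by positivity
  -- order facts
  have hord : ∀ S ∈ SS n m l a, ∀ S' ∈ SS n m l a, (∀ w ∈ S.1, w < S'.2.1) ∧ S.2.1 < S'.2.2 := by
    intro S hS S' hS'
    obtain ⟨_, _, h1, h2, h3⟩ := mem_SS S hS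
    obtain ⟨_, _, h1', h2', h3'⟩ := mem_SS S' hS'
    refine ⟨fun w hw => ?_, ?_⟩
    · rw [Fin.lt_def]; have := h1 w hw; omega
    · rw [Fin.lt_def]; omega
  have hI01 : ∀ S ∈ SS n m l a, ∀ x, I S x = if Struct (gr x) S.1 S.2.1 S.2.2 then 1 else 0 := by
    intro S hS x
    exact IS_eq S.1 S.2.1 S.2.2 (hord S hS S hS).1 (hord S hS S hS).2 x
  -- first moment
  have hEX : ∑ x : Fin n → Fin n → Bool, mu p q x * ∑ S ∈ SS n m l a, I S x =
      ((m.choose a : ℝ) * (l : ℝ) ^ 2) * P := by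
    simp_rw [Finset.mul_sum]
    rw [Finset.sum_comm]
    have : ∀ S ∈ SS n m l a, ∑ x : Fin n → Fin n → Bool, mu p q x * I S x = P := by
      intro S hS
      rw [hI]
      simp only
      rw [exp_IS p q hpq S.1 S.2.1 S.2.2 (hord S hS S hS).1 (hord S hS S hS).2, (mem_SS S hS).1]
    rw [Finset.sum_congr rfl this, Finset.sum_const, card_SS hn, nsmul_eq_mul]
    push_cast; ring
  -- second moment
  set T : ℝ := ∑ j ∈ Finset.range (a + 1), (a.choose j : ℝ) * ((m - a).choose (a - j) : ℝ) *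
        ((q ^ (j.choose 2))⁻¹ * ((l : ℝ) ^ 4 +
          2 * (l : ℝ) ^ 3 * ((p ^ 3 + q ^ 3) / (p ^ 2 + q ^ 2) ^ 2) ^ j +
          (l : ℝ) ^ 2 * (q⁻¹ * (1 / (p ^ 2 + q ^ 2)) ^ j))) with hT
  have hEX2 : ∑ x : Fin n → Fin n → Bool, mu p q x * (∑ S ∈ SS n m l a, I S x) ^ 2 ≤
      P ^ 2 * ((m.choose a : ℝ) * T) := by
    have e1 : ∑ x : Fin n → Fin n → Bool, mu p q x * (∑ S ∈ SS n m l a, I S x) ^ 2 =
        ∑ S ∈ SS n m l a, ∑ S' ∈ SS n m l a, ∑ x : Fin n → Fin n → Bool,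
          mu p q x * (I S x * I S' x) := by
      have : ∀ x : Fin n → Fin n → Bool, mu p q x * (∑ S ∈ SS n m l a, I S x) ^ 2 =
          ∑ S ∈ SS n m l a, ∑ S' ∈ SS n m l a, mu p q x * (I S x * I S' x) := by
        intro x
        rw [pow_two, Finset.sum_mul_sum, Finset.mul_sum]
        refine Finset.sum_congr rfl fun S _ => ?_
        rw [Finset.mul_sum]
      simp_rw [this]
      rw [Finset.sum_comm]
      refine Finset.sum_congr rfl fun S _ => ?_
      rw [Finset.sum_comm]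
    rw [e1]
    have e2 : ∀ S ∈ SS n m l a, ∀ S' ∈ SS n m l a, ∑ x : Fin n → Fin n → Bool,
          mu p q x * (I S x * I S' x) = P ^ 2 * ((q ^ ((S.1 ∩ S'.1).card.choose 2))⁻¹ *
            ((kap p q S.2.1 S.2.2 S'.2.1 S'.2.2 / (p ^ 2 + q ^ 2) ^ 2) ^ (S.1 ∩ S'.1).card *
              rho q S.2.1 S.2.2 S'.2.1 S'.2.2)) := by
      intro S hS S' hS'
      rw [hI]
      simp only
      rw [exp_pair p q hpq hq hp S.1 S'.1 S.2.1 S.2.2 S'.2.1 S'.2.2 (hord S hS S hS).1
        (hord S' hS' S' hS').1 (hord S' hS' S hS).1 (hord S hS S' hS').1 (hord S hS S hS).2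
        (hord S' hS' S' hS').2 (hord S hS S' hS').2 (hord S' hS' S hS).2, (mem_SS S hS).1,
        (mem_SS S' hS').1]
      rw [← hP]; ring
    rw [Finset.sum_congr rfl fun S hS => Finset.sum_congr rfl fun S' hS' => e2 S hS S' hS']
    simp_rw [← Finset.mul_sum]
    refine mul_le_mul_of_nonneg_left ?_ (by positivity)
    -- reorganise
    set C : Finset (Fin n) := blk n m (m + l) with hC
    set D : Finset (Fin n) := blk n (m + l) (m + 2 * l) with hD
    have hCc : C.card = l := by rw [hC, card_blk (by omega)]; omega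
    have hDc : D.card = l := by rw [hD, card_blk hn]; omega
    set A : Finset (Fin n) := blk n 0 m with hA
    have hAc : A.card = m := by rw [hA, card_blk (by omega)]; omega
    have e3 : ∑ S ∈ SS n m l a, ∑ S' ∈ SS n m l a, ((q ^ ((S.1 ∩ S'.1).card.choose 2))⁻¹ *
            ((kap p q S.2.1 S.2.2 S'.2.1 S'.2.2 / (p ^ 2 + q ^ 2) ^ 2) ^ (S.1 ∩ S'.1).card *
              rho q S.2.1 S.2.2 S'.2.1 S'.2.2)) =
        ∑ W ∈ A.powersetCard a, ∑ W' ∈ A.powersetCard a, (q ^ ((W ∩ W').card.choose 2))⁻¹ *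
          ∑ e ∈ C ×ˢ D, ∑ f ∈ C ×ˢ D,
      ((kap p q e.1 e.2 f.1 f.2 / (p ^ 2 + q ^ 2) ^ 2) ^ (W ∩ W').card * rho q e.1 e.2 f.1 f.2) := by
      have hSS : SS n m l a = (A.powersetCard a) ×ˢ (C ×ˢ D) := rfl
      rw [hSS, Finset.sum_product]
      refine Finset.sum_congr rfl fun W _ => ?_
      have hin : ∀ F : (Fin n × Fin n) → (Finset (Fin n) × Fin n × Fin n) → ℝ,
          ∑ e ∈ C ×ˢ D, ∑ S' ∈ (A.powersetCard a) ×ˢ (C ×ˢ D), F e S' =
          ∑ e ∈ C ×ˢ D, ∑ W' ∈ A.powersetCard a, ∑ f ∈ C ×ˢ D, F e (W', f) := by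
        intro F
        refine Finset.sum_congr rfl fun e _ => ?_
        rw [Finset.sum_product]
      rw [hin]
      rw [Finset.sum_comm]
      refine Finset.sum_congr rfl fun W' _ => ?_
      rw [Finset.mul_sum]
      refine Finset.sum_congr rfl fun e _ => ?_
      rw [Finset.mul_sum]
    rw [e3]
    set g : ℕ → ℝ := fun j => (q ^ (j.choose 2))⁻¹ * ((l : ℝ) ^ 4 +
          2 * (l : ℝ) ^ 3 * ((p ^ 3 + q ^ 3) / (p ^ 2 + q ^ 2) ^ 2) ^ j +
          (l : ℝ) ^ 2 * (q⁻¹ * (1 / (p ^ 2 + q ^ 2)) ^ j)) with hg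
    have hg0 : ∀ j, 0 ≤ g j := by intro j; rw [hg]; positivity
    calc _ ≤ ∑ W ∈ A.powersetCard a, ∑ W' ∈ A.powersetCard a, g (W ∩ W').card := by
          refine Finset.sum_le_sum fun W _ => Finset.sum_le_sum fun W' _ => ?_
          rw [hg]
          exact mul_le_mul_of_nonneg_left (sum_kap_le p q hp hq C D l hCc hDc _) (by positivity)
      _ ≤ ∑ W ∈ A.powersetCard a, T := by
          refine Finset.sum_le_sum fun W hW => ?_
          have := sum_inter_le A a g hg0 W hW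
          rw [hAc] at this
          exact this
      _ = (m.choose a : ℝ) * T := by
          rw [Finset.sum_const, Finset.card_powersetCard, hAc, nsmul_eq_mul]
  -- Cauchy-Schwarz
  have hCS : (∑ x : Fin n → Fin n → Bool, mu p q x * ∑ S ∈ SS n m l a, I S x) ^ 2 ≤
      (∑ x : Fin n → Fin n → Bool, mu p q x * (if Ev2 n m l a (gr x) then 1 else 0)) *
      ∑ x : Fin n → Fin n → Bool, mu p q x * (∑ S ∈ SS n m l a, I S x) ^ 2 := by
    have h1 := Finset.sum_mul_sq_le_sq_mul_sq Finset.univ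
      (fun x : Fin n → Fin n → Bool => Real.sqrt (mu p q x) * (if Ev2 n m l a (gr x) then 1 else 0))
      (fun x => Real.sqrt (mu p q x) * ∑ S ∈ SS n m l a, I S x)
    have h2 : ∀ x : Fin n → Fin n → Bool,
        (Real.sqrt (mu p q x) * (if Ev2 n m l a (gr x) then 1 else 0)) *
        (Real.sqrt (mu p q x) * ∑ S ∈ SS n m l a, I S x) = mu p q x * ∑ S ∈ SS n m l a, I S x := by
      intro x
      by_cases hx : Ev2 n m l a (gr x)
      · rw [if_pos hx, mul_one, ← mul_assoc, Real.mul_self_sqrt (hmu x)]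
      · have : ∑ S ∈ SS n m l a, I S x = 0 := by
          refine Finset.sum_eq_zero fun S hS => ?_
          rw [hI01 S hS, if_neg]
          intro h
          exact hx ⟨S, hS, h⟩
        rw [this]; ring
    have h3 : ∀ x : Fin n → Fin n → Bool,
        (Real.sqrt (mu p q x) * (if Ev2 n m l a (gr x) then 1 else 0)) ^ 2 =
        mu p q x * (if Ev2 n m l a (gr x) then 1 else 0) := by
      intro x
      rw [mul_pow, Real.sq_sqrt (hmu x)]
      congr 1
      split_ifs <;> simp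
    have h4 : ∀ x : Fin n → Fin n → Bool,
        (Real.sqrt (mu p q x) * ∑ S ∈ SS n m l a, I S x) ^ 2 =
        mu p q x * (∑ S ∈ SS n m l a, I S x) ^ 2 := by
      intro x
      rw [mul_pow, Real.sq_sqrt (hmu x)]
    simp_rw [h2, h3, h4] at h1
    exact h1
  set Q : ℝ := ∑ x : Fin n → Fin n → Bool, mu p q x * (if Ev2 n m l a (gr x) then 1 else 0) with hQ
  have hQ0 : 0 ≤ Q := by
    refine Finset.sum_nonneg fun x _ => mul_nonneg (hmu x) ?_
    split_ifs <;> norm_num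
  rw [hEX] at hCS
  have hfin : (((m.choose a : ℝ) * (l : ℝ) ^ 2) * P) ^ 2 ≤ Q * (P ^ 2 * ((m.choose a : ℝ) * T)) :=
    le_trans hCS (mul_le_mul_of_nonneg_left hEX2 hQ0)
  rcases Nat.eq_zero_or_pos (m.choose a) with h0 | h0
  · rw [h0]
    have hT0 : 0 ≤ T := by rw [hT]; exact Finset.sum_nonneg fun j _ => by positivity
    simp only [Nat.cast_zero, zero_mul]
    exact mul_nonneg hQ0 hT0
  · have h0' : (0 : ℝ) < m.choose a := by exact_mod_cast h0
    have hpos : (0 : ℝ) < P ^ 2 * (m.choose a : ℝ) := by positivity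
    have : (P ^ 2 * (m.choose a : ℝ)) * ((m.choose a : ℝ) * (l : ℝ) ^ 4) ≤
        (P ^ 2 * (m.choose a : ℝ)) * (Q * T) := by
      nlinarith [hfin]
    exact le_of_mul_le_mul_left this hpos

end Pool.Agent.W120.BC
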