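import Mathlib
import Pool.Agent.W120.BC.Second

set_option autoImplicit false
open scoped Classical

namespace Pool.Agent.W120.BC

variable {n : ℕ}

theorem exp_indep (p q : ℝ) (hpq : p + q = 1) (T : Finset (Fin n)) :
    ∑ x : Fin n → Fin n → Bool, mu p q x *
      (if ∀ i ∈ T, ∀ j ∈ T, ¬ (gr x).Adj i j then 1 else 0) = q ^ (T.card.choose 2) := by
  classical
  have hind : ∀ x : Fin n → Fin n → Bool,
      (if ∀ i ∈ T, ∀ j ∈ T, ¬ (gr x).Adj i j then (1:ℝ) else 0) =
      ∏ i, (if i ∈ T then (if ∀ k ∈ lt' T i, x i k = false then (1:ℝ) else 0) else 1) := by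
    intro x
    by_cases h : ∀ i ∈ T, ∀ j ∈ T, ¬ (gr x).Adj i j
    · rw [if_pos h]
      symm
      refine Finset.prod_eq_one fun i _ => ?_
      by_cases hi : i ∈ T
      · rw [if_pos hi, if_pos]
        intro k hk
        rw [lt', Finset.mem_filter] at hk
        have := h i hi k hk.1
        rw [gr_adj x hk.2] at this
        simpa using this
      · rw [if_neg hi]
    · rw [if_neg h]
      by_contra hne
      apply h
      have hall : ∀ i ∈ T, ∀ k ∈ lt' T i, x i k = false := by
        intro i hi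
        by_contra hc
        apply hne
        symm
        refine Finset.prod_eq_zero (Finset.mem_univ i) ?_
        rw [if_pos hi, if_neg hc]
      intro i hi j hj
      rcases lt_trichotomy i j with hij | hij | hij
      · rw [gr_adj x hij]
        have := hall i hi j (by rw [lt', Finset.mem_filter]; exact ⟨hj, hij⟩)
        simp [this]
      · subst hij; exact (gr x).loopless.irrefl _
      · rw [(gr x).adj_comm, gr_adj x hij]
        have := hall j hj i (by rw [lt', Finset.mem_filter]; exact ⟨hi, hij⟩)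
        simp [this]
  simp_rw [hind]
  rw [sum_mu_prod p q (fun i r => (if i ∈ T then (if ∀ k ∈ lt' T i, r k = false then (1:ℝ) else 0) else 1))]
  have hrow : ∀ i : Fin n, ∑ r : Fin n → Bool, rw' p q r *
      (if i ∈ T then (if ∀ k ∈ lt' T i, r k = false then (1:ℝ) else 0) else 1) =
      (if i ∈ T then q ^ (lt' T i).card else 1) := by
    intro i
    by_cases hi : i ∈ T
    · simp only [if_pos hi]
      have := row_zero p q hpq (lt' T i)
      rw [ER] at this
      exact this
    · simp only [if_neg hi]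
      have := row_one (n := n) p q hpq
      rw [ER] at this
      exact this
  simp_rw [hrow]
  rw [Finset.prod_ite_mem, Finset.univ_inter, Finset.prod_pow_eq_pow_sum, sum_lt']

/-- There is an independent set with `b` vertices. -/
def Ev1 (n b : ℕ) (G : SimpleGraph (Fin n)) : Prop :=
  ∃ T : Finset (Fin n), T.card = b ∧ ∀ i ∈ T, ∀ j ∈ T, ¬ G.Adj i j

theorem first_moment (p q : ℝ) (hpq : p + q = 1) (hp : 0 < p) (hq : 0 < q) (b : ℕ) :
    ∑ x : Fin n → Fin n → Bool, mu p q x * (if Ev1 n b (gr x) then 1 else 0) ≤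
      (n.choose b : ℝ) * q ^ (b.choose 2) := by
  classical
  have hmu : ∀ x : Fin n → Fin n → Bool, 0 ≤ mu p q x := mu_nonneg hp.le hq.le
  have h1 : ∀ x : Fin n → Fin n → Bool, mu p q x * (if Ev1 n b (gr x) then (1:ℝ) else 0) ≤
      ∑ T ∈ (Finset.univ : Finset (Fin n)).powersetCard b, mu p q x *
        (if ∀ i ∈ T, ∀ j ∈ T, ¬ (gr x).Adj i j then 1 else 0) := by
    intro x
    by_cases h : Ev1 n b (gr x)
    · obtain ⟨T, hT, hI⟩ := h
      rw [if_pos ⟨T, hT, hI⟩]
      have hmem : T ∈ (Finset.univ : Finset (Fin n)).powersetCard b := by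
        rw [Finset.mem_powersetCard]; exact ⟨Finset.subset_univ _, hT⟩
      calc mu p q x * 1 = mu p q x * (if ∀ i ∈ T, ∀ j ∈ T, ¬ (gr x).Adj i j then 1 else 0) := by
            rw [if_pos hI]
        _ ≤ _ := by
            refine Finset.single_le_sum (f := fun T => mu p q x *
              (if ∀ i ∈ T, ∀ j ∈ T, ¬ (gr x).Adj i j then (1:ℝ) else 0)) (fun T _ => ?_) hmem
            refine mul_nonneg (hmu x) ?_
            split_ifs <;> norm_num
    · rw [if_neg h, mul_zero]
      refine Finset.sum_nonneg fun T _ => mul_nonneg (hmu x) ?_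
      split_ifs <;> norm_num
  refine le_trans (Finset.sum_le_sum fun x _ => h1 x) ?_
  rw [Finset.sum_comm]
  simp_rw [exp_indep p q hpq]
  have : ∀ T ∈ (Finset.univ : Finset (Fin n)).powersetCard b, q ^ (T.card.choose 2) = q ^ (b.choose 2) := by
    intro T hT
    rw [(Finset.mem_powersetCard.1 hT).2]
  rw [Finset.sum_congr rfl this, Finset.sum_const, Finset.card_powersetCard, Finset.card_univ,
    Fintype.card_fin, nsmul_eq_mul]

theorem prob_le (p q : ℝ) (hpq : p + q = 1) (hp : 0 < p) (hq : 0 < q) (n m l a : ℕ) :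
    ∑ G : SimpleGraph (Fin n), (if sInf (BCset G) = n - Gᶜ.cliqueNum then
      p ^ G.edgeFinset.card * q ^ (n.choose 2 - G.edgeFinset.card) else 0) ≤
    1 - (∑ x : Fin n → Fin n → Bool, mu p q x * (if Ev2 n m l a (gr x) then 1 else 0)) +
      (n.choose (a + 1) : ℝ) * q ^ ((a + 1).choose 2) := by
  classical
  have hmu : ∀ x : Fin n → Fin n → Bool, 0 ≤ mu p q x := mu_nonneg hp.le hq.le
  have h1 : ∑ G : SimpleGraph (Fin n), (if sInf (BCset G) = n - Gᶜ.cliqueNum then
      p ^ G.edgeFinset.card * q ^ (n.choose 2 - G.edgeFinset.card) else 0) =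
      ∑ x : Fin n → Fin n → Bool, mu p q x *
        (if sInf (BCset (gr x)) = n - (gr x)ᶜ.cliqueNum then 1 else 0) := by
    rw [← sum_graph p q hpq (fun G => if sInf (BCset G) = n - Gᶜ.cliqueNum then (1:ℝ) else 0)]
    refine Finset.sum_congr rfl fun G _ => ?_
    rw [mul_ite, mul_one, mul_zero]
  rw [h1]
  refine le_trans ?_ (add_le_add_right (first_moment (n := n) p q hpq hp hq (a + 1)) _)
  have hre : 1 - (∑ x : Fin n → Fin n → Bool, mu p q x * (if Ev2 n m l a (gr x) then (1:ℝ) else 0)) +
      ∑ x : Fin n → Fin n → Bool, mu p q x * (if Ev1 n (a + 1) (gr x) then (1:ℝ) else 0) =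
      ∑ x : Fin n → Fin n → Bool, (mu p q x - mu p q x * (if Ev2 n m l a (gr x) then (1:ℝ) else 0) +
        mu p q x * (if Ev1 n (a + 1) (gr x) then (1:ℝ) else 0)) := by
    rw [Finset.sum_add_distrib, Finset.sum_sub_distrib, sum_mu_one (n := n) p q hpq]
  rw [hre]
  refine Finset.sum_le_sum fun x _ => ?_
  by_cases h2 : Ev2 n m l a (gr x)
  · by_cases h3 : Ev1 n (a + 1) (gr x)
    · rw [if_pos h2, if_pos h3]
      have := hmu x
      split_ifs <;> linarith
    · have hne : sInf (BCset (gr x)) ≠ n - (gr x)ᶜ.cliqueNum := by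
        obtain ⟨S, hS, hSt⟩ := h2
        obtain ⟨hc, _, hW, hu, hu'⟩ := mem_SS S hS
        refine not_eq_of_struct (gr x) S.1 S.2.1 S.2.2 hc ?_ ?_ ?_ hSt ?_
        · intro h; have := hW _ h; omega
        · intro h; have := hW _ h; omega
        · intro h; rw [h] at hu; omega
        · intro T hT
          by_contra hcon
          push Not at hcon
          exact h3 ⟨T, hT, hcon⟩
      rw [if_pos h2, if_neg h3, if_neg hne]
      linarith
  · rw [if_neg h2]
    have := hmu x
    split_ifs <;> linarith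

end Pool.Agent.W120.BC
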