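import Mathlib

set_option autoImplicit false

namespace Pool.Agent.W120.BC

theorem inv_q_pow (j : ℕ) : (((25 : ℝ) / 49) ^ (j.choose 2))⁻¹ = ((7 : ℝ) / 5) ^ (j * (j - 1)) := by
  have h1 : ((25 : ℝ) / 49)⁻¹ = (7 / 5) ^ 2 := by norm_num
  rw [← inv_pow, h1, ← pow_mul]
  congr 1
  rw [Nat.choose_two_right]
  exact Nat.mul_div_cancel' (Nat.even_mul_pred_self j).two_dvd

theorem choose_shift (m a j : ℕ) (hj : j ≤ a) (ha : a ≤ m) :
    (m.choose (a - j) : ℝ) * ((m - a : ℕ) : ℝ) ^ j ≤ (m.choose a : ℝ) * (a : ℝ) ^ j := by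
  induction j with
  | zero => simp
  | succ j ih =>
    have ih' := ih (by omega)
    set k := a - (j + 1) with hk
    have hk1 : a - j = k + 1 := by omega
    rw [hk1] at ih'
    have h1 : (m.choose (k + 1) : ℝ) * ((k : ℝ) + 1) = (m.choose k : ℝ) * ((m - k : ℕ) : ℝ) := by
      have := Nat.choose_succ_right_eq m k
      exact_mod_cast this
    have h2 : ((m - a : ℕ) : ℝ) ≤ ((m - k : ℕ) : ℝ) := by
      have : m - a ≤ m - k := by omega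
      exact_mod_cast this
    have h3 : ((k : ℝ) + 1) ≤ a := by
      have : k + 1 ≤ a := by omega
      exact_mod_cast this
    have hc : (0 : ℝ) ≤ (m.choose k : ℝ) := by positivity
    have hc1 : (0 : ℝ) ≤ (m.choose (k + 1) : ℝ) := by positivity
    calc (m.choose k : ℝ) * ((m - a : ℕ) : ℝ) ^ (j + 1)
        = ((m.choose k : ℝ) * ((m - a : ℕ) : ℝ)) * ((m - a : ℕ) : ℝ) ^ j := by ring
      _ ≤ ((m.choose k : ℝ) * ((m - k : ℕ) : ℝ)) * ((m - a : ℕ) : ℝ) ^ j := by gcongr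
      _ = ((k : ℝ) + 1) * ((m.choose (k + 1) : ℝ) * ((m - a : ℕ) : ℝ) ^ j) := by rw [← h1]; ring
      _ ≤ (a : ℝ) * ((m.choose a : ℝ) * (a : ℝ) ^ j) := by gcongr
      _ = (m.choose a : ℝ) * (a : ℝ) ^ (j + 1) := by ring

/-- The weight function. -/
noncomputable def wj (l j : ℕ) : ℝ := (l : ℝ) ^ 4 +
          2 * (l : ℝ) ^ 3 * (((24 / 49 : ℝ) ^ 3 + (25 / 49) ^ 3) / ((24 / 49) ^ 2 + (25 / 49) ^ 2) ^ 2) ^ j +
          (l : ℝ) ^ 2 * ((25 / 49 : ℝ)⁻¹ * (1 / ((24 / 49) ^ 2 + (25 / 49) ^ 2)) ^ j)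

theorem wj_nonneg (l j : ℕ) : 0 ≤ wj l j := by
  rw [wj]; positivity

/-- crude bound -/
theorem wj_le (l j : ℕ) : wj l j ≤ (l : ℝ) ^ 4 + 2 * (l : ℝ) ^ 3 * (11 / 10) ^ j +
    2 * (l : ℝ) ^ 2 * 2 ^ j := by
  rw [wj]
  have h1 : (((24 / 49 : ℝ) ^ 3 + (25 / 49) ^ 3) / ((24 / 49) ^ 2 + (25 / 49) ^ 2) ^ 2) ^ j ≤
      (11 / 10) ^ j := by
    apply pow_le_pow_left₀ (by positivity)
    norm_num
  have h2 : (1 / ((24 / 49 : ℝ) ^ 2 + (25 / 49) ^ 2)) ^ j ≤ 2 ^ j := by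
    apply pow_le_pow_left₀ (by positivity)
    norm_num
  have h3 : (25 / 49 : ℝ)⁻¹ ≤ 2 := by norm_num
  have h4 : (25 / 49 : ℝ)⁻¹ * (1 / ((24 / 49) ^ 2 + (25 / 49) ^ 2)) ^ j ≤ 2 * 2 ^ j := by
    gcongr
  nlinarith [h1, h4, pow_nonneg (Nat.cast_nonneg (α := ℝ) l) 3, pow_nonneg (Nat.cast_nonneg (α := ℝ) l) 2]

theorem wj_le_top (l j a : ℕ) (hj : j ≤ a) : wj l j ≤ (l : ℝ) ^ 4 + 2 * (l : ℝ) ^ 3 * (11 / 10) ^ a +
    2 * (l : ℝ) ^ 2 * 2 ^ a := by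
  refine (wj_le l j).trans ?_
  have h1 : ((11 : ℝ) / 10) ^ j ≤ (11 / 10) ^ a := pow_le_pow_right₀ (by norm_num) hj
  have h2 : (2 : ℝ) ^ j ≤ 2 ^ a := pow_le_pow_right₀ (by norm_num) hj
  gcongr

theorem wj_le_small (l j : ℕ) (hl : 1 ≤ l) : wj l j ≤ 5 * (l : ℝ) ^ 4 * 2 ^ j := by
  refine (wj_le l j).trans ?_
  have hl' : (1 : ℝ) ≤ l := by exact_mod_cast hl
  have h1 : ((11 : ℝ) / 10) ^ j ≤ 2 ^ j := pow_le_pow_left₀ (by norm_num) (by norm_num) j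
  have h2 : (1 : ℝ) ≤ 2 ^ j := one_le_pow₀ (by norm_num)
  have h3 : (l : ℝ) ^ 3 ≤ (l : ℝ) ^ 4 := pow_le_pow_right₀ hl' (by norm_num)
  have h4 : (l : ℝ) ^ 2 ≤ (l : ℝ) ^ 4 := pow_le_pow_right₀ hl' (by norm_num)
  have h5 : (0 : ℝ) ≤ (l : ℝ) ^ 3 := by positivity
  calc (l : ℝ) ^ 4 + 2 * (l : ℝ) ^ 3 * (11 / 10) ^ j + 2 * (l : ℝ) ^ 2 * 2 ^ j
      ≤ (l : ℝ) ^ 4 * 2 ^ j + 2 * (l : ℝ) ^ 4 * 2 ^ j + 2 * (l : ℝ) ^ 4 * 2 ^ j := by
        gcongr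
        exact le_mul_of_one_le_right (by positivity) h2
    _ = 5 * (l : ℝ) ^ 4 * 2 ^ j := by ring

/-- The `j`-th term. -/
noncomputable def term (m l a j : ℕ) : ℝ := (a.choose j : ℝ) * ((m - a).choose (a - j) : ℝ) *
        (((25 / 49 : ℝ) ^ (j.choose 2))⁻¹ * wj l j)

theorem term_zero (m l a : ℕ) (hl : 32 ≤ l) :
    term m l a 0 ≤ (m.choose a : ℝ) * (l : ℝ) ^ 4 * (9 / 8) := by
  rw [term]
  have hl' : (32 : ℝ) ≤ l := by exact_mod_cast hl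
  have h1 := wj_le l 0
  simp only [pow_zero, mul_one] at h1
  have h2 : (l : ℝ) ^ 4 + 2 * (l : ℝ) ^ 3 + 2 * (l : ℝ) ^ 2 ≤ (l : ℝ) ^ 4 * (9 / 8) := by
    have h3 : 32 * (l : ℝ) ^ 3 ≤ (l : ℝ) ^ 4 := by
      have : (l : ℝ) ^ 4 = l * (l : ℝ) ^ 3 := by ring
      rw [this]; gcongr
    have h4 : 32 * (l : ℝ) ^ 2 ≤ (l : ℝ) ^ 3 := by
      have : (l : ℝ) ^ 3 = l * (l : ℝ) ^ 2 := by ring
      rw [this]; gcongr
    nlinarith [pow_nonneg (Nat.cast_nonneg (α := ℝ) l) 2]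
  have h3 : (((m - a).choose a : ℕ) : ℝ) ≤ (m.choose a : ℝ) := by
    exact_mod_cast Nat.choose_le_choose a (Nat.sub_le m a)
  simp only [Nat.choose_zero_right, Nat.sub_zero, Nat.cast_one, one_mul]
  have h0 : ((0 : ℕ).choose 2) = 0 := rfl
  rw [h0, pow_zero, inv_one, one_mul]
  calc (((m - a).choose a : ℕ) : ℝ) * wj l 0 ≤ (m.choose a : ℝ) * ((l : ℝ) ^ 4 * (9 / 8)) := by
        apply mul_le_mul h3 (h1.trans h2) (wj_nonneg l 0) (by positivity)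
    _ = _ := by ring

theorem term_small (m l h j : ℕ) (hl : 1 ≤ l) (hj1 : 1 ≤ j) (hj : j ≤ h)
    (hm : 2 * h < m) (hy : 2 * ((2 * h : ℕ) : ℝ) ^ 2 * (7 / 5) ^ h * (40 * h) ≤ ((m - 2 * h : ℕ) : ℝ)) :
    term m l (2 * h) j * (8 * h) ≤ (m.choose (2 * h) : ℝ) * (l : ℝ) ^ 4 := by
  set a := 2 * h with ha
  have hh : 1 ≤ h := hj1.trans hj
  have hh' : (1 : ℝ) ≤ h := by exact_mod_cast hh
  have hma : (0 : ℝ) < ((m - a : ℕ) : ℝ) := by
    have : 0 < m - a := by omega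
    exact_mod_cast this
  set y : ℝ := 2 * (a : ℝ) ^ 2 * (7 / 5) ^ h / ((m - a : ℕ) : ℝ) with hydef
  have hy0 : 0 ≤ y := by positivity
  have hy1 : y * (40 * h) ≤ 1 := by
    rw [hydef, div_mul_eq_mul_div, div_le_one hma]
    exact hy
  have hyle1 : y ≤ 1 := by nlinarith
  have c1 : ((a.choose j : ℕ) : ℝ) ≤ (a : ℝ) ^ j := by exact_mod_cast Nat.choose_le_pow a j
  have c2 : (((m - a).choose (a - j) : ℕ) : ℝ) ≤ (m.choose a : ℝ) * (a : ℝ) ^ j / ((m - a : ℕ) : ℝ) ^ j := by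
    rw [le_div_iff₀ (by positivity)]
    refine le_trans ?_ (choose_shift m a j (by omega) (by omega))
    gcongr
    exact Nat.sub_le m a
  have c3 : (((25 / 49 : ℝ) ^ (j.choose 2))⁻¹) ≤ ((7 / 5 : ℝ) ^ h) ^ j := by
    rw [inv_q_pow, ← pow_mul]
    apply pow_le_pow_right₀ (by norm_num)
    rw [mul_comm]
    exact Nat.mul_le_mul_right j (by omega)
  have c4 := wj_le_small l j hl
  have key : term m l a j ≤ 5 * (m.choose a : ℝ) * (l : ℝ) ^ 4 * y := by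
    calc term m l a j ≤ ((a : ℝ) ^ j) * ((m.choose a : ℝ) * (a : ℝ) ^ j / ((m - a : ℕ) : ℝ) ^ j) *
          (((7 / 5 : ℝ) ^ h) ^ j * (5 * (l : ℝ) ^ 4 * 2 ^ j)) := by
          rw [term]
          have hw := wj_nonneg l j
          gcongr
      _ = 5 * (m.choose a : ℝ) * (l : ℝ) ^ 4 * y ^ j := by
          rw [hydef]
          generalize ((7 / 5 : ℝ) ^ h) = z
          rw [div_pow, mul_pow, mul_pow, ← pow_mul, mul_comm 2 j, pow_mul]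
          ring
      _ ≤ 5 * (m.choose a : ℝ) * (l : ℝ) ^ 4 * y := by
          gcongr
          exact pow_le_of_le_one hy0 hyle1 (by omega)
  have hC : (0 : ℝ) ≤ (m.choose a : ℝ) * (l : ℝ) ^ 4 := by positivity
  calc term m l a j * (8 * h) ≤ (5 * (m.choose a : ℝ) * (l : ℝ) ^ 4 * y) * (8 * h) := by gcongr
    _ = ((m.choose a : ℝ) * (l : ℝ) ^ 4) * (y * (40 * h)) := by ring
    _ ≤ ((m.choose a : ℝ) * (l : ℝ) ^ 4) * 1 := by gcongr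
    _ = _ := by ring

theorem term_large (m l h j : ℕ) (hj1 : h < j) (hj : j ≤ 2 * h)
    (hm : ((2 * h : ℕ) : ℝ) * m ≤ (7 / 5) ^ (3 * h)) :
    term m l (2 * h) j ≤ (7 / 5 : ℝ) ^ (2 * h * (2 * h - 1)) *
      ((l : ℝ) ^ 4 + 2 * (l : ℝ) ^ 3 * (11 / 10) ^ (2 * h) + 2 * (l : ℝ) ^ 2 * 2 ^ (2 * h)) := by
  set a := 2 * h with ha
  set i := a - j with hi
  have c1 : ((a.choose j : ℕ) : ℝ) ≤ (a : ℝ) ^ i := by
    rw [← Nat.choose_symm hj]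
    exact_mod_cast Nat.choose_le_pow a i
  have c2 : (((m - a).choose i : ℕ) : ℝ) ≤ (m : ℝ) ^ i := by
    have h0 : (((m - a).choose i : ℕ) : ℝ) ≤ ((m - a : ℕ) : ℝ) ^ i := by
      exact_mod_cast Nat.choose_le_pow (m - a) i
    refine le_trans h0 ?_
    gcongr
    exact Nat.sub_le m a
  have c3 : (a : ℝ) ^ i * (m : ℝ) ^ i * (7 / 5 : ℝ) ^ (j * (j - 1)) ≤ (7 / 5 : ℝ) ^ (a * (a - 1)) := by
    rw [← mul_pow]
    calc ((a : ℝ) * m) ^ i * (7 / 5 : ℝ) ^ (j * (j - 1)) ≤ ((7 / 5) ^ (3 * h)) ^ i * (7 / 5 : ℝ) ^ (j * (j - 1)) := by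
          gcongr
      _ = (7 / 5 : ℝ) ^ (3 * h * i + j * (j - 1)) := by rw [← pow_mul, ← pow_add]
      _ ≤ (7 / 5 : ℝ) ^ (a * (a - 1)) := by
          apply pow_le_pow_right₀ (by norm_num)
          have hji : a = i + j := by omega
          have h3 : 3 * h ≤ i + 2 * j - 1 := by omega
          calc 3 * h * i + j * (j - 1) ≤ (i + 2 * j - 1) * i + j * (j - 1) := by gcongr
            _ = a * (a - 1) := by
              rw [hji]
              obtain ⟨j', rfl⟩ : ∃ j', j = j' + 1 := ⟨j - 1, by omega⟩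
              have e1 : i + 2 * (j' + 1) - 1 = i + 2 * j' + 1 := by omega
              have e2 : j' + 1 - 1 = j' := by omega
              have e3 : i + (j' + 1) - 1 = i + j' := by omega
              rw [e1, e2, e3]; ring
  rw [term, inv_q_pow]
  calc (a.choose j : ℝ) * ((m - a).choose (a - j) : ℝ) * ((7 / 5 : ℝ) ^ (j * (j - 1)) * wj l j)
      ≤ (a : ℝ) ^ i * (m : ℝ) ^ i * ((7 / 5 : ℝ) ^ (j * (j - 1)) * wj l j) := by
        have := wj_nonneg l j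
        gcongr
    _ = ((a : ℝ) ^ i * (m : ℝ) ^ i * (7 / 5 : ℝ) ^ (j * (j - 1))) * wj l j := by ring
    _ ≤ (7 / 5 : ℝ) ^ (a * (a - 1)) * ((l : ℝ) ^ 4 + 2 * (l : ℝ) ^ 3 * (11 / 10) ^ a +
          2 * (l : ℝ) ^ 2 * 2 ^ a) :=
        mul_le_mul c3 (wj_le_top l j a hj) (wj_nonneg l j) (by positivity)

theorem core_sum (m l h : ℕ) (hh : 1 ≤ h) (hl : 32 ≤ l)
    (hm : 2 * h < m) (hy : 2 * ((2 * h : ℕ) : ℝ) ^ 2 * (7 / 5) ^ h * (40 * h) ≤ ((m - 2 * h : ℕ) : ℝ))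
    (hm2 : ((2 * h : ℕ) : ℝ) * m ≤ (7 / 5) ^ (3 * h))
    (HW : (h : ℝ) * ((7 / 5 : ℝ) ^ (2 * h * (2 * h - 1)) *
      ((l : ℝ) ^ 4 + 2 * (l : ℝ) ^ 3 * (11 / 10) ^ (2 * h) + 2 * (l : ℝ) ^ 2 * 2 ^ (2 * h))) ≤
      (1 / 2) * ((m.choose (2 * h) : ℝ) * (l : ℝ) ^ 4)) :
    ∑ j ∈ Finset.range (2 * h + 1), term m l (2 * h) j ≤
      2 * ((m.choose (2 * h) : ℝ) * (l : ℝ) ^ 4) := by
  set X : ℝ := (m.choose (2 * h) : ℝ) * (l : ℝ) ^ 4 with hX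
  have hX0 : 0 ≤ X := by positivity
  have hh' : (1 : ℝ) ≤ h := by exact_mod_cast hh
  have hsplit : Finset.range (2 * h + 1) = insert 0 (Finset.Icc 1 h ∪ Finset.Icc (h + 1) (2 * h)) := by
    ext j
    simp only [Finset.mem_range, Finset.mem_insert, Finset.mem_union, Finset.mem_Icc]
    omega
  have hdis : Disjoint (Finset.Icc 1 h) (Finset.Icc (h + 1) (2 * h)) := by
    rw [Finset.disjoint_left]
    intro j hj hj'
    rw [Finset.mem_Icc] at hj hj'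
    omega
  rw [hsplit, Finset.sum_insert (by simp), Finset.sum_union hdis]
  have s0 : term m l (2 * h) 0 ≤ X * (9 / 8) := by
    have := term_zero m l (2 * h) hl
    rw [← hX] at this; exact this
  have s1 : ∑ j ∈ Finset.Icc 1 h, term m l (2 * h) j ≤ X / 8 := by
    have : ∀ j ∈ Finset.Icc 1 h, term m l (2 * h) j ≤ X / (8 * h) := by
      intro j hj
      rw [Finset.mem_Icc] at hj
      rw [le_div_iff₀ (by positivity)]
      exact term_small m l h j (by omega) hj.1 hj.2 hm hy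
    refine (Finset.sum_le_sum this).trans ?_
    rw [Finset.sum_const, Nat.card_Icc, nsmul_eq_mul, Nat.add_sub_cancel]
    apply le_of_eq
    field_simp
  have s2 : ∑ j ∈ Finset.Icc (h + 1) (2 * h), term m l (2 * h) j ≤ (1 / 2) * X := by
    have : ∀ j ∈ Finset.Icc (h + 1) (2 * h), term m l (2 * h) j ≤ (7 / 5 : ℝ) ^ (2 * h * (2 * h - 1)) *
      ((l : ℝ) ^ 4 + 2 * (l : ℝ) ^ 3 * (11 / 10) ^ (2 * h) + 2 * (l : ℝ) ^ 2 * 2 ^ (2 * h)) := by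
      intro j hj
      rw [Finset.mem_Icc] at hj
      exact term_large m l h j (by omega) hj.2 hm2
    refine (Finset.sum_le_sum this).trans ?_
    rw [Finset.sum_const, Nat.card_Icc, nsmul_eq_mul]
    have e : 2 * h + 1 - (h + 1) = h := by omega
    rw [e]
    exact HW
  linarith

end Pool.Agent.W120.BC
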