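import Mathlib
import Pool.Agent.W120.BC.Core

set_option autoImplicit false

open Filter Topology

namespace Pool.Agent.W120.BC

theorem desc_ratio (N m : ℕ) (h9 : (9 / 10 : ℝ) * N ≤ m) :
    ∀ a : ℕ, 2 * a ≤ N → (4 / 5 : ℝ) ^ a * (N.descFactorial a : ℝ) ≤ (m.descFactorial a : ℝ) := by
  intro a
  induction a with
  | zero => intro _; simp
  | succ a ih =>
    intro ha
    have ih' := ih (by omega)
    rw [Nat.descFactorial_succ, Nat.descFactorial_succ]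
    have hNa : (2 : ℝ) * (a + 1) ≤ N := by exact_mod_cast ha
    have hma : a ≤ m := by
      have : (a : ℝ) ≤ m := by nlinarith
      exact_mod_cast this
    have haN : a ≤ N := by omega
    push_cast [Nat.cast_sub hma, Nat.cast_sub haN]
    have h1 : (4 / 5 : ℝ) * ((N : ℝ) - a) ≤ (m : ℝ) - a := by linarith
    have h0 : (0 : ℝ) ≤ (N : ℝ) - a := by linarith
    have h2 : (0 : ℝ) ≤ (4 / 5 : ℝ) ^ a * (N.descFactorial a : ℝ) := by positivity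
    calc (4 / 5 : ℝ) ^ (a + 1) * (((N : ℝ) - a) * (N.descFactorial a : ℝ))
        = (4 / 5 * ((N : ℝ) - a)) * ((4 / 5 : ℝ) ^ a * (N.descFactorial a : ℝ)) := by ring
      _ ≤ ((m : ℝ) - a) * (m.descFactorial a : ℝ) := by
          apply mul_le_mul h1 ih' h2
          linarith

theorem choose_ratio (N m a : ℕ) (h9 : (9 / 10 : ℝ) * N ≤ m) (ha : 2 * a ≤ N) :
    (4 / 5 : ℝ) ^ a * (N.choose a : ℝ) ≤ (m.choose a : ℝ) := by
  have h := desc_ratio N m h9 a ha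
  rw [Nat.descFactorial_eq_factorial_mul_choose, Nat.descFactorial_eq_factorial_mul_choose] at h
  push_cast at h
  have hf : (0 : ℝ) < (a.factorial : ℝ) := by exact_mod_cast a.factorial_pos
  have : (a.factorial : ℝ) * ((4 / 5 : ℝ) ^ a * (N.choose a : ℝ)) ≤ (a.factorial : ℝ) * (m.choose a : ℝ) := by
    linarith
  exact le_of_mul_le_mul_left this hf

theorem exists_N (a : ℕ) (ha : 3 ≤ a) : ∃ N : ℕ,
    (N.choose (a + 1) : ℝ) ≤ (7 / 5 : ℝ) ^ ((a + 1) * a) / 4 ∧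
    (7 / 5 : ℝ) ^ ((a + 1) * a) / 4 < ((N + 1).choose (a + 1) : ℝ) := by
  classical
  have hex : ∃ N : ℕ, (7 / 5 : ℝ) ^ ((a + 1) * a) / 4 < ((N + 1).choose (a + 1) : ℝ) := by
    obtain ⟨K, hK⟩ := exists_nat_gt (((7 / 5 : ℝ) ^ ((a + 1) * a) / 4) * ((a + 1).factorial : ℝ))
    refine ⟨a + K, ?_⟩
    have h1 := Nat.pow_le_choose (α := ℝ) (a + 1) (a + K + 1)
    have hf : (0 : ℝ) < ((a + 1).factorial : ℝ) := by exact_mod_cast (a + 1).factorial_pos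
    refine lt_of_lt_of_le ?_ h1
    rw [lt_div_iff₀ hf]
    refine lt_of_lt_of_le hK ?_
    have e : a + K + 1 + 1 - (a + 1) = K + 1 := by omega
    rw [e]
    have : K ≤ (K + 1) ^ (a + 1) := by
      calc K ≤ K + 1 := Nat.le_succ K
        _ = (K + 1) ^ 1 := (pow_one _).symm
        _ ≤ (K + 1) ^ (a + 1) := Nat.pow_le_pow_right (by omega) (by omega)
    exact_mod_cast this
  refine ⟨Nat.find hex, ?_, Nat.find_spec hex⟩
  rcases Nat.eq_zero_or_pos (Nat.find hex) with h0 | h0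
  · rw [h0, Nat.choose_eq_zero_of_lt (by omega)]
    simp only [Nat.cast_zero]
    positivity
  · have h1 := Nat.find_min hex (m := Nat.find hex - 1) (by omega)
    rw [not_lt] at h1
    have e : Nat.find hex - 1 + 1 = Nat.find hex := by omega
    rw [e] at h1
    exact h1

theorem lower_N (a N : ℕ) (ha : 3 ≤ a)
    (h : (7 / 5 : ℝ) ^ ((a + 1) * a) / 4 < ((N + 1).choose (a + 1) : ℝ)) :
    (7 / 5 : ℝ) ^ a ≤ (N : ℝ) + 1 := by
  have h1 := Nat.choose_le_pow_div (α := ℝ) (a + 1) (N + 1)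
  have hf : (0 : ℝ) < ((a + 1).factorial : ℝ) := by exact_mod_cast (a + 1).factorial_pos
  have h4 : (4 : ℝ) ≤ ((a + 1).factorial : ℝ) := by
    have : (4).factorial ≤ (a + 1).factorial := Nat.factorial_le (by omega)
    have h24 : (4).factorial = 24 := by decide
    have : 4 ≤ (a + 1).factorial := by omega
    exact_mod_cast this
  have h2 := h.trans_le h1
  rw [lt_div_iff₀ hf] at h2
  have h3 : ((7 / 5 : ℝ) ^ a) ^ (a + 1) < ((N : ℝ) + 1) ^ (a + 1) := by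
    rw [← pow_mul, mul_comm a (a + 1)]
    have h5 : (7 / 5 : ℝ) ^ ((a + 1) * a) ≤ (7 / 5 : ℝ) ^ ((a + 1) * a) / 4 * ((a + 1).factorial : ℝ) := by
      have : (0 : ℝ) < (7 / 5 : ℝ) ^ ((a + 1) * a) := by positivity
      nlinarith
    refine lt_of_le_of_lt h5 ?_
    push_cast at h2
    exact h2
  exact (lt_of_pow_lt_pow_left₀ (a + 1) (by positivity) h3).le

theorem upper_N (a N : ℕ) (haN : a ≤ N)
    (h : (N.choose (a + 1) : ℝ) ≤ (7 / 5 : ℝ) ^ ((a + 1) * a) / 4) :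
    (N : ℝ) ≤ (a + 1) * (7 / 5 : ℝ) ^ a + a := by
  have h1 := Nat.pow_le_choose (α := ℝ) (a + 1) N
  have hf : (0 : ℝ) < ((a + 1).factorial : ℝ) := by exact_mod_cast (a + 1).factorial_pos
  have h2 := h1.trans h
  rw [div_le_iff₀ hf] at h2
  have e : N + 1 - (a + 1) = N - a := by omega
  rw [e] at h2
  have hfac : ((a + 1).factorial : ℝ) ≤ ((a : ℝ) + 1) ^ (a + 1) := by
    exact_mod_cast Nat.factorial_le_pow (a + 1)
  have h3 : (((N - a : ℕ) : ℝ)) ^ (a + 1) ≤ (((a : ℝ) + 1) * (7 / 5 : ℝ) ^ a) ^ (a + 1) := by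
    rw [mul_pow, ← pow_mul, mul_comm a (a + 1)]
    refine h2.trans ?_
    have hb : (0 : ℝ) < (7 / 5 : ℝ) ^ ((a + 1) * a) := by positivity
    calc (7 / 5 : ℝ) ^ ((a + 1) * a) / 4 * ((a + 1).factorial : ℝ)
        ≤ (7 / 5 : ℝ) ^ ((a + 1) * a) * (((a : ℝ) + 1) ^ (a + 1)) := by
          apply mul_le_mul _ hfac hf.le hb.le
          linarith
      _ = _ := by ring
  have h4 := le_of_pow_le_pow_left₀ (by omega) (by positivity) h3
  rw [Nat.cast_sub haN] at h4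
  linarith

theorem params (h : ℕ) (hh : 10 ≤ h)
    (C1 : 1280 * (h : ℝ) ^ 3 ≤ (7 / 5 : ℝ) ^ h)
    (C2 : 36 * (2 * (h : ℝ) + 1) ≤ (28 / 25 : ℝ) ^ (2 * h))
    (C3 : 984 * (11 / 10 : ℝ) ^ (2 * h) ≤ (196 / 125 : ℝ) ^ (2 * h))
    (C4 : 40344 * (2 : ℝ) ^ (2 * h) ≤ (1372 / 625 : ℝ) ^ (2 * h)) :
    ∃ N m l : ℕ, h ≤ N ∧ m + 2 * l ≤ N ∧
      (N.choose (2 * h + 1) : ℝ) * (25 / 49) ^ ((2 * h + 1).choose 2) ≤ 1 / 4 ∧
      0 < l ∧ 0 < m.choose (2 * h) ∧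
      ∑ j ∈ Finset.range (2 * h + 1), term m l (2 * h) j ≤
      2 * ((m.choose (2 * h) : ℝ) * (l : ℝ) ^ 4) := by
  obtain ⟨N, hN1, hN2⟩ := exists_N (2 * h) (by omega)
  set a := 2 * h with ha
  have hh' : (10 : ℝ) ≤ h := by exact_mod_cast hh
  have haR : (a : ℝ) = 2 * h := by rw [ha]; push_cast; ring
  have hlow := lower_N a N (by omega) hN2
  -- size of b^a
  have hba : (7 / 5 : ℝ) ^ a = (7 / 5 : ℝ) ^ h * (7 / 5 : ℝ) ^ h := by rw [← pow_add]; congr 1; omega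
  have hbig : (1280000 : ℝ) ≤ (7 / 5 : ℝ) ^ h := by
    have : (1000 : ℝ) ≤ (h : ℝ) ^ 3 := by
      calc (1000 : ℝ) = 10 ^ 3 := by norm_num
        _ ≤ (h : ℝ) ^ 3 := by gcongr
    linarith
  have hb0 : (0 : ℝ) < (7 / 5 : ℝ) ^ h := by positivity
  have hbh : (1280 : ℝ) * h ^ 3 * (7 / 5 : ℝ) ^ h ≤ (7 / 5 : ℝ) ^ a := by
    rw [hba]; gcongr
  have h3h : (h : ℝ) ≤ (h : ℝ) ^ 3 := by
    nlinarith [sq_nonneg ((h : ℝ)), mul_nonneg (by linarith : (0:ℝ) ≤ h) (by nlinarith : (0:ℝ) ≤ (h:ℝ)^2 - 1)]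
  have hNbig : (1000000 : ℝ) * (h + 1) ≤ N := by
    have h5 : (1280 : ℝ) * h * 1280000 ≤ 1280 * h ^ 3 * (7 / 5 : ℝ) ^ h := by gcongr
    nlinarith
  have haN : a ≤ N := by
    have : (a : ℝ) ≤ N := by rw [haR]; nlinarith
    exact_mod_cast this
  have hup := upper_N a N haN hN1
  have hup2 : (N : ℝ) + 1 ≤ 2 * (a + 1) * (7 / 5 : ℝ) ^ a := by
    have : (1 : ℝ) ≤ (7 / 5 : ℝ) ^ a := one_le_pow₀ (by norm_num)
    nlinarith [Nat.cast_nonneg (α := ℝ) a]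
  set l := N / 20 with hl
  set m := N - 2 * l with hm
  have hl1 : 20 * l ≤ N := Nat.mul_div_le N 20
  have hl2 : N < 20 * l + 20 := by omega
  have hl1R : 20 * (l : ℝ) ≤ N := by exact_mod_cast hl1
  have hl2R : (N : ℝ) < 20 * l + 20 := by exact_mod_cast hl2
  have hmR : (m : ℝ) = N - 2 * l := by
    rw [hm, Nat.cast_sub (by omega)]; push_cast; ring
  have hm9 : (9 / 10 : ℝ) * N ≤ m := by rw [hmR]; linarith
  have hlR : (N : ℝ) + 1 ≤ 41 * l := by nlinarith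
  have hlbig : 32 ≤ l := by
    have : (32 : ℝ) ≤ l := by nlinarith
    exact_mod_cast this
  have hmN : m ≤ N := by omega
  have hma : a < m := by
    have : (a : ℝ) < m := by rw [haR]; nlinarith
    exact_mod_cast this
  have hCpos : 0 < m.choose a := Nat.choose_pos hma.le
  refine ⟨N, m, l, ?_, by omega, ?_, by omega, hCpos, ?_⟩
  · have : (h : ℝ) ≤ N := by nlinarith
    exact_mod_cast this
  · have e := inv_q_pow (a + 1)
    rw [Nat.add_sub_cancel] at e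
    have hx : (0 : ℝ) < (25 / 49 : ℝ) ^ ((a + 1).choose 2) := by positivity
    rw [← e] at hN1
    calc (N.choose (a + 1) : ℝ) * (25 / 49) ^ ((a + 1).choose 2)
        ≤ (((25 / 49 : ℝ) ^ ((a + 1).choose 2))⁻¹ / 4) * (25 / 49) ^ ((a + 1).choose 2) := by gcongr
      _ = 1 / 4 := by field_simp
  · apply core_sum m l h (by omega) hlbig (by omega)
    · -- hy
      rw [← ha]
      have hmaR : ((m - a : ℕ) : ℝ) = m - a := by rw [Nat.cast_sub hma.le]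
      rw [hmaR]
      have h6 : 2 * (a : ℝ) ^ 2 * (7 / 5) ^ h * (40 * h) = 320 * ((h : ℝ) ^ 3 * (7 / 5) ^ h) := by
        rw [haR]; ring
      rw [h6]
      have h7 : 1280 * ((h : ℝ) ^ 3 * (7 / 5) ^ h) ≤ N + 1 := by linarith
      nlinarith
    · -- hm2
      rw [← ha]
      have h8 : (7 / 5 : ℝ) ^ (3 * h) = (7 / 5 : ℝ) ^ h * (7 / 5 : ℝ) ^ a := by
        rw [← pow_add]; congr 1; omega
      rw [h8]
      have hmN' : (m : ℝ) ≤ N + 1 := by rw [hmR]; nlinarith [Nat.cast_nonneg (α := ℝ) l]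
      have h9 : (a : ℝ) * (2 * (a + 1)) ≤ (7 / 5 : ℝ) ^ h := by
        rw [haR]
        have : (h : ℝ) ^ 2 * 10 ≤ h ^ 3 := by
          have : (h : ℝ) ^ 3 = h ^ 2 * h := by ring
          rw [this]; gcongr
        nlinarith
      calc (a : ℝ) * m ≤ a * (2 * (a + 1) * (7 / 5 : ℝ) ^ a) := by
            gcongr
            exact hmN'.trans hup2
        _ = (a * (2 * (a + 1))) * (7 / 5 : ℝ) ^ a := by ring
        _ ≤ _ := by gcongr
    · -- HW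
      rw [← ha]
      have hratio := choose_ratio N m a hm9 (by
        have : (2 : ℝ) * a ≤ N := by rw [haR]; nlinarith
        exact_mod_cast this)
      have hadd : ((N : ℝ) + 1) * (N.choose a : ℝ) = ((N + 1).choose (a + 1) : ℝ) * ((a : ℝ) + 1) := by
        exact_mod_cast Nat.add_one_mul_choose_eq N a
      have hN0 : (0 : ℝ) < (N : ℝ) + 1 := by positivity
      have hCN : (7 / 5 : ℝ) ^ ((a + 1) * a) / 4 * ((a : ℝ) + 1) ≤ ((N : ℝ) + 1) * (N.choose a : ℝ) := by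
        rw [hadd]; gcongr
      have hexp : (7 / 5 : ℝ) ^ ((a + 1) * a) = (7 / 5 : ℝ) ^ (a * (a - 1)) * (7 / 5 : ℝ) ^ (2 * a) := by
        rw [← pow_add]
        congr 1
        obtain ⟨a', ha'⟩ : ∃ a', a = a' + 1 := ⟨a - 1, by omega⟩
        rw [ha', Nat.add_sub_cancel]; ring
      have h45 : (4 / 5 : ℝ) ^ a * (7 / 5 : ℝ) ^ (2 * a) = (196 / 125 : ℝ) ^ a := by
        rw [pow_mul (7 / 5 : ℝ) 2 a, ← mul_pow]; norm_num
      -- lower bound of C(m,a)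
      have hCm : (7 / 5 : ℝ) ^ (a * (a - 1)) * ((196 / 125 : ℝ) ^ a * ((a : ℝ) + 1)) ≤
          4 * ((N : ℝ) + 1) * (m.choose a : ℝ) := by
        calc (7 / 5 : ℝ) ^ (a * (a - 1)) * ((196 / 125 : ℝ) ^ a * ((a : ℝ) + 1))
            = 4 * ((4 / 5 : ℝ) ^ a * ((7 / 5 : ℝ) ^ ((a + 1) * a) / 4 * ((a : ℝ) + 1))) := by
              rw [hexp, ← h45]; ring
          _ ≤ 4 * ((4 / 5 : ℝ) ^ a * (((N : ℝ) + 1) * (N.choose a : ℝ))) := by gcongr
          _ = 4 * ((N : ℝ) + 1) * ((4 / 5 : ℝ) ^ a * (N.choose a : ℝ)) := by ring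
          _ ≤ 4 * ((N : ℝ) + 1) * (m.choose a : ℝ) := by gcongr
      -- the three inequalities
      have hl0 : (0 : ℝ) < l := by
        have : 0 < l := by omega
        exact_mod_cast this
      have i1 : 12 * ((N : ℝ) + 1) ≤ (196 / 125 : ℝ) ^ a := by
        have e1 : (196 / 125 : ℝ) ^ a = (28 / 25 : ℝ) ^ a * (7 / 5 : ℝ) ^ a := by
          rw [← mul_pow]; norm_num
        rw [e1]
        have e2 : 24 * ((a : ℝ) + 1) ≤ (28 / 25 : ℝ) ^ a := by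
          rw [haR]; refine le_trans ?_ C2; linarith
        calc 12 * ((N : ℝ) + 1) ≤ 12 * (2 * (a + 1) * (7 / 5 : ℝ) ^ a) := by gcongr
          _ = (24 * ((a : ℝ) + 1)) * (7 / 5 : ℝ) ^ a := by ring
          _ ≤ _ := by gcongr
      have i2 : 24 * ((N : ℝ) + 1) * (11 / 10 : ℝ) ^ a ≤ (196 / 125 : ℝ) ^ a * l := by
        calc 24 * ((N : ℝ) + 1) * (11 / 10 : ℝ) ^ a ≤ 24 * (41 * l) * (11 / 10 : ℝ) ^ a := by gcongr
          _ = (984 * (11 / 10 : ℝ) ^ a) * l := by ring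
          _ ≤ _ := by gcongr
      have i3 : 24 * ((N : ℝ) + 1) * (2 : ℝ) ^ a ≤ (196 / 125 : ℝ) ^ a * l ^ 2 := by
        have e1 : (1372 / 625 : ℝ) ^ a = (196 / 125 : ℝ) ^ a * (7 / 5 : ℝ) ^ a := by
          rw [← mul_pow]; norm_num
        have e2 : (7 / 5 : ℝ) ^ a ≤ 41 * l := hlow.trans hlR
        have e3 : 40344 * (2 : ℝ) ^ a ≤ (196 / 125 : ℝ) ^ a * (41 * l) := by
          refine C4.trans ?_
          rw [e1]; gcongr
        have e4 : 984 * (2 : ℝ) ^ a ≤ (196 / 125 : ℝ) ^ a * l := by nlinarith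
        calc 24 * ((N : ℝ) + 1) * (2 : ℝ) ^ a ≤ 24 * (41 * l) * (2 : ℝ) ^ a := by gcongr
          _ = (984 * (2 : ℝ) ^ a) * l := by ring
          _ ≤ ((196 / 125 : ℝ) ^ a * l) * l := by gcongr
          _ = _ := by ring
      have hsum : ((l : ℝ) ^ 4 + 2 * (l : ℝ) ^ 3 * (11 / 10) ^ a + 2 * (l : ℝ) ^ 2 * 2 ^ a) *
          (4 * ((N : ℝ) + 1)) ≤ (196 / 125 : ℝ) ^ a * (l : ℝ) ^ 4 := by
        have j1 : (l : ℝ) ^ 4 * (12 * ((N : ℝ) + 1)) ≤ (l : ℝ) ^ 4 * (196 / 125 : ℝ) ^ a := by gcongr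
        have j2 : (l : ℝ) ^ 3 * (24 * ((N : ℝ) + 1) * (11 / 10 : ℝ) ^ a) ≤
            (l : ℝ) ^ 3 * ((196 / 125 : ℝ) ^ a * l) := by gcongr
        have j3 : (l : ℝ) ^ 2 * (24 * ((N : ℝ) + 1) * (2 : ℝ) ^ a) ≤
            (l : ℝ) ^ 2 * ((196 / 125 : ℝ) ^ a * l ^ 2) := by gcongr
        nlinarith
      have hhalf : (h : ℝ) ≤ ((a : ℝ) + 1) / 2 := by rw [haR]; linarith
      have hB0 : (0 : ℝ) < (7 / 5 : ℝ) ^ (a * (a - 1)) := by positivity
      have hfin : ((h : ℝ) * ((7 / 5 : ℝ) ^ (a * (a - 1)) * ((l : ℝ) ^ 4 + 2 * (l : ℝ) ^ 3 * (11 / 10) ^ a +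
          2 * (l : ℝ) ^ 2 * 2 ^ a))) * (4 * ((N : ℝ) + 1)) ≤
          ((1 / 2) * ((m.choose a : ℝ) * (l : ℝ) ^ 4)) * (4 * ((N : ℝ) + 1)) := by
        calc ((h : ℝ) * ((7 / 5 : ℝ) ^ (a * (a - 1)) * ((l : ℝ) ^ 4 + 2 * (l : ℝ) ^ 3 * (11 / 10) ^ a +
          2 * (l : ℝ) ^ 2 * 2 ^ a))) * (4 * ((N : ℝ) + 1))
            = ((h : ℝ) * (7 / 5 : ℝ) ^ (a * (a - 1))) * (((l : ℝ) ^ 4 + 2 * (l : ℝ) ^ 3 * (11 / 10) ^ a +
          2 * (l : ℝ) ^ 2 * 2 ^ a) * (4 * ((N : ℝ) + 1))) := by ring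
          _ ≤ ((h : ℝ) * (7 / 5 : ℝ) ^ (a * (a - 1))) * ((196 / 125 : ℝ) ^ a * (l : ℝ) ^ 4) := by gcongr
          _ ≤ ((((a : ℝ) + 1) / 2) * (7 / 5 : ℝ) ^ (a * (a - 1))) * ((196 / 125 : ℝ) ^ a * (l : ℝ) ^ 4) := by
              gcongr
          _ = (1 / 2) * (l : ℝ) ^ 4 * ((7 / 5 : ℝ) ^ (a * (a - 1)) * ((196 / 125 : ℝ) ^ a * ((a : ℝ) + 1))) := by
              ring
          _ ≤ (1 / 2) * (l : ℝ) ^ 4 * (4 * ((N : ℝ) + 1) * (m.choose a : ℝ)) := by gcongr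
          _ = _ := by ring
      exact le_of_mul_le_mul_right hfin (by positivity)

theorem ev_conditions : ∀ᶠ h : ℕ in atTop, 10 ≤ h ∧
    1280 * (h : ℝ) ^ 3 ≤ (7 / 5 : ℝ) ^ h ∧
    36 * (2 * (h : ℝ) + 1) ≤ (28 / 25 : ℝ) ^ (2 * h) ∧
    984 * (11 / 10 : ℝ) ^ (2 * h) ≤ (196 / 125 : ℝ) ^ (2 * h) ∧
    40344 * (2 : ℝ) ^ (2 * h) ≤ (1372 / 625 : ℝ) ^ (2 * h) := by
  have t1 : Tendsto (fun n : ℕ => (n : ℝ) ^ 3 / (7 / 5 : ℝ) ^ n) atTop (𝓝 0) :=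
    tendsto_pow_const_div_const_pow_of_one_lt 3 (by norm_num)
  have t2 : Tendsto (fun n : ℕ => (n : ℝ) ^ 1 / ((28 / 25 : ℝ) ^ 2) ^ n) atTop (𝓝 0) :=
    tendsto_pow_const_div_const_pow_of_one_lt 1 (by norm_num)
  have t3 : Tendsto (fun n : ℕ => (((196 / 125 : ℝ) / (11 / 10)) ^ 2) ^ n) atTop atTop :=
    tendsto_pow_atTop_atTop_of_one_lt (by norm_num)
  have t4 : Tendsto (fun n : ℕ => (((1372 / 625 : ℝ) / 2) ^ 2) ^ n) atTop atTop :=
    tendsto_pow_atTop_atTop_of_one_lt (by norm_num)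
  have e1 := t1.eventually (eventually_lt_nhds (b := (1 / 1280 : ℝ)) (by norm_num))
  have e2 := t2.eventually (eventually_lt_nhds (b := (1 / 108 : ℝ)) (by norm_num))
  have e3 := t3.eventually_ge_atTop (984 : ℝ)
  have e4 := t4.eventually_ge_atTop (40344 : ℝ)
  filter_upwards [e1, e2, e3, e4, eventually_ge_atTop 10] with h h1 h2 h3 h4 h5
  refine ⟨h5, ?_, ?_, ?_, ?_⟩
  · rw [div_lt_iff₀ (by positivity)] at h1
    linarith
  · rw [div_lt_iff₀ (by positivity), ← pow_mul, pow_one] at h2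
    have : (10 : ℝ) ≤ h := by exact_mod_cast h5
    linarith
  · rw [← pow_mul, div_pow, le_div_iff₀ (by positivity)] at h3
    exact h3
  · rw [← pow_mul, div_pow, le_div_iff₀ (by positivity)] at h4
    exact h4

end Pool.Agent.W120.BC
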